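import Pool.Agent.T2H98.RS.Stm
import Pool.Agent.Helper276.VdC

/-!
# RS package VDC: second derivative test
-/

set_option autoImplicit false

open MeasureTheory Filter Topology Finset

namespace Pool.Agent.T2H98.RS

namespace VDC

theorem hasDerivAt_fi {t : ℝ} (ht : 0 < t) :
    HasDerivAt fi (1 / 2 * Real.log (t / (2 * Real.pi * Real.exp 1)) + 1 / 2) t := by
  have hc : (0 : ℝ) < 2 * Real.pi * Real.exp 1 := by positivity
  have h1 : HasDerivAt (fun t : ℝ => t / (2 * Real.pi * Real.exp 1))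
      (1 / (2 * Real.pi * Real.exp 1)) t := (hasDerivAt_id t).div_const _
  have h2 : HasDerivAt (fun t : ℝ => Real.log (t / (2 * Real.pi * Real.exp 1)))
      (1 / (2 * Real.pi * Real.exp 1) / (t / (2 * Real.pi * Real.exp 1))) t :=
    h1.log (div_pos ht hc).ne'
  have h3 : HasDerivAt (fun t : ℝ => t / 2) (1 / 2) t := (hasDerivAt_id t).div_const 2
  have h4 := (h3.mul h2).sub_const (Real.pi / 8)
  refine h4.congr_deriv ?_
  field_simp

theorem hasDerivAt_log' {t : ℝ} (ht : 0 < t) :
    HasDerivAt (fun t : ℝ => Real.log (t / (2 * Real.pi * Real.exp 1))) (1 / t) t := by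
  have hc : (0 : ℝ) < 2 * Real.pi * Real.exp 1 := by positivity
  have h1 : HasDerivAt (fun t : ℝ => t / (2 * Real.pi * Real.exp 1))
      (1 / (2 * Real.pi * Real.exp 1)) t := (hasDerivAt_id t).div_const _
  have h2 := h1.log (div_pos ht hc).ne'
  refine h2.congr_deriv ?_
  field_simp

end VDC

open VDC in
theorem pVDC : S_VDC := by
  refine ⟨8, by norm_num, fun h L a b T hh ha hab hbT => ?_⟩
  have hT : 0 < T := by linarith
  set ψ : ℝ → ℝ := fun t => 2 * h * fi t - t * L with hψ
  set ψ1 : ℝ → ℝ := fun t => h * (Real.log (t / (2 * Real.pi * Real.exp 1)) + 1) - L with hψ1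
  set ψ2 : ℝ → ℝ := fun t => h * (1 / t) with hψ2
  have h1 : ∀ x ∈ Set.Icc a b, HasDerivAt ψ (ψ1 x) x := by
    intro x hx
    have hx0 : 0 < x := lt_of_lt_of_le ha hx.1
    have e1 := ((hasDerivAt_fi hx0).const_mul (2 * (h : ℝ))).sub
      ((hasDerivAt_id x).mul_const L)
    refine e1.congr_deriv ?_
    rw [hψ1]
    ring
  have h2 : ∀ x ∈ Set.Icc a b, HasDerivAt ψ1 (ψ2 x) x := by
    intro x hx
    have hx0 : 0 < x := lt_of_lt_of_le ha hx.1
    exact (((hasDerivAt_log' hx0).add_const 1).const_mul (h : ℝ)).sub_const L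
  have h2c : ContinuousOn ψ2 (Set.Icc a b) := by
    intro x hx
    have hx0 : x ≠ 0 := (lt_of_lt_of_le ha hx.1).ne'
    have : ContinuousAt ψ2 x := by
      rw [hψ2]
      exact continuousAt_const.mul (continuousAt_const.div continuousAt_id hx0)
    exact this.continuousWithinAt
  have hm : (0 : ℝ) < 1 / T := by positivity
  have hbound : (8 : ℝ) / Real.sqrt (1 / T) = 8 * Real.sqrt T := by
    rw [Real.sqrt_div' _ hT.le, Real.sqrt_one]
    have : 0 < Real.sqrt T := Real.sqrt_pos.2 hT
    field_simp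
  have hinv : ∀ x ∈ Set.Icc a b, 1 / T ≤ 1 / x := by
    intro x hx
    have hx0 : 0 < x := lt_of_lt_of_le ha hx.1
    exact one_div_le_one_div_of_le hx0 (hx.2.trans hbT)
  have heq : (∫ t in a..b, Complex.exp (((2 * h * fi t - t * L : ℝ) : ℂ) * Complex.I)) =
      ∫ x in a..b, Complex.exp (Complex.I * (ψ x : ℂ)) := by
    refine intervalIntegral.integral_congr fun x _ => ?_
    simp only [hψ]
    rw [mul_comm Complex.I]
  rw [heq, ← hbound]
  rcases lt_or_gt_of_ne hh with hneg | hpos
  · refine Pool.Agent.Helper276.VdC.second_test_neg hab hm h1 h2 h2c fun x hx => ?_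
    have h3 := hinv x hx
    have h4 : (h : ℝ) ≤ -1 := by
      have : h ≤ -1 := by omega
      exact_mod_cast this
    change (h : ℝ) * (1 / x) ≤ -(1 / T)
    have h5 : 0 < 1 / x := lt_of_lt_of_le hm h3
    nlinarith
  · refine Pool.Agent.Helper276.VdC.second_test_pos hab hm h1 h2 h2c fun x hx => ?_
    have h3 := hinv x hx
    have h4 : (1 : ℝ) ≤ h := by
      have : 1 ≤ h := by omega
      exact_mod_cast this
    change 1 / T ≤ (h : ℝ) * (1 / x)
    have h5 : 0 < 1 / x := lt_of_lt_of_le hm h3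
    nlinarith

end Pool.Agent.T2H98.RS
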