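import Pool.Agent.T2H98.RS.Stm
import Pool.Agent.T2H98.RT.VAR1

/-! package VG -/

set_option autoImplicit false

open MeasureTheory Filter Topology Finset

namespace Pool.Agent.T2H98.RS

open Pool.Agent.T2H98.RT (P tw S A b gam QS S_MUL S_OR S_LIM S_AE S_QUAD S_RSB S_DIV)

namespace VG

open Pool.Agent.T2H98.RT.VAR1

theorem gen (hM : S_MUL) {ι : Type} (I : Finset ι) (q : ι → ℕ × ℕ) (a : ι → ℂ) :
    ((∫ θ, ‖∑ i ∈ I, a i * ff θ (q i)‖ ^ 2 ∂P : ℝ) : ℂ) =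
      ∑ i ∈ I, ∑ i' ∈ I, a i * (starRingEnd ℂ) (a i') *
        ∫ θ, ff θ (q i) * (starRingEnd ℂ) (ff θ (q i')) ∂P := by
  rw [← integral_complex_ofReal]
  have h1 : (fun θ : ℕ → ℝ => ((‖∑ i ∈ I, a i * ff θ (q i)‖ ^ 2 : ℝ) : ℂ)) =
      fun θ => ∑ i ∈ I, ∑ i' ∈ I, (a i * (starRingEnd ℂ) (a i')) *
        (ff θ (q i) * (starRingEnd ℂ) (ff θ (q i'))) := by
    funext θ
    have h3 : ((‖∑ i ∈ I, a i * ff θ (q i)‖ ^ 2 : ℝ) : ℂ) =
        (∑ i ∈ I, a i * ff θ (q i)) * (starRingEnd ℂ) (∑ i ∈ I, a i * ff θ (q i)) := by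
      rw [Complex.mul_conj, Complex.normSq_eq_norm_sq]
    rw [h3, map_sum, sum_mul_sum]
    refine sum_congr rfl fun i _ => sum_congr rfl fun i' _ => ?_
    rw [map_mul]
    ring
  rw [h1, integral_finsetSum]
  · refine sum_congr rfl fun i _ => ?_
    rw [integral_finsetSum]
    · refine sum_congr rfl fun i' _ => ?_
      exact integral_const_mul _ _
    · intro i' _
      exact term_integrable hM _ _ _
  · intro i _
    exact integrable_finsetSum _ fun i' _ => term_integrable hM _ _ _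

end VG

open VG Pool.Agent.T2H98.RT.VAR1 in
theorem pVG (hMUL : S_MUL) (hOR : S_OR) : S_VG := by
  intro ι I m n c K hI
  set L := ∫ θ, ‖∑ i ∈ I, (c i : ℂ) * K i * tw θ (m i) * (starRingEnd ℂ) (tw θ (n i))‖ ^ 2 ∂P with hL
  have hL0 : 0 ≤ L := integral_nonneg fun θ => sq_nonneg _
  have hLe : L = ∫ θ, ‖∑ i ∈ I, ((c i : ℂ) * K i) * ff θ ((fun i => (m i, n i)) i)‖ ^ 2 ∂P := by
    rw [hL]
    congr 1
    funext θ
    congr 2
    refine sum_congr rfl fun i _ => ?_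
    unfold ff
    ring
  have h1 : L = ‖(L : ℂ)‖ := by
    rw [Complex.norm_real, Real.norm_of_nonneg hL0]
  rw [h1, hLe, gen hMUL I (fun i => (m i, n i)) (fun i => (c i : ℂ) * K i)]
  refine (norm_sum_le _ _).trans (sum_le_sum fun i hi => ?_)
  refine (norm_sum_le _ _).trans (sum_le_sum fun i' hi' => ?_)
  obtain ⟨a1, a2, a3⟩ := hI i hi
  obtain ⟨b1, b2, b3⟩ := hI i' hi'
  rw [ff_int hMUL hOR _ _ a1 a2 b1 b2]
  simp only
  split_ifs with h
  · rw [mul_one, norm_mul, RCLike.norm_conj, norm_mul, norm_mul, Complex.norm_real, Complex.norm_real,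
      Real.norm_of_nonneg a3, Real.norm_of_nonneg b3]
    apply le_of_eq
    ring
  · simp

end Pool.Agent.T2H98.RS
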