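import Pool.Agent.T2H98.RT.Stm

/-!
# Project RS (helper98): MP_80d0cf_nt, the Riemann-Siegel form of the random twists

`S(θ,N,t) = ∑_{n ≤ N} f(n) n^{-1/2-it}` as in project RT, `f(p) = e^{2πiθ_p}`. Let
`Z(θ,t) = 2 Re (e^{iφ(t)} S(θ, ⌊√(t/2π)⌋, t))`, `φ(t) = (t/2) log(t/2πe) - π/8`. For `f = 1` this is Hardy's
function up to `O(t^{-1/4})` (Riemann-Siegel), `|Z| = |ζ(1/2+it)|`. TARGET: for almost all `θ`, for all `k ≥ 1`,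
`(1/T) ∫_0^T Z^{2k} dt ~ binom(2k,k) 2^{-k²} a(k) vol(P_k) (log T)^{k²}`.

Every package is INDEPENDENT (Deps are hypotheses). File `Pool/Agent/T2H98/RS/<ID>.lean`:
`import Pool.Agent.T2H98.RS.Stm`, `namespace Pool.Agent.T2H98.RS`, `theorem p<ID> (h : S_dep) .. : S_<ID>`,
own lemmas in namespace `<ID>`. All packages of RT are proved (files `Pool/Agent/T2H98/RT/`), you may import them.
-/

set_option autoImplicit false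

open MeasureTheory Filter Topology Finset

namespace Pool.Agent.T2H98.RS

open Pool.Agent.T2H98.RT (P tw S A b gam QS S_MUL S_OR S_LIM S_AE S_QUAD S_RSB S_DIV)

/-- the length `⌊√(t/2π)⌋` -/
noncomputable def Nf (t : ℝ) : ℕ := ⌊Real.sqrt (t / (2 * Real.pi))⌋₊

/-- the phase `(t/2) log(t/2πe) - π/8` -/
noncomputable def fi (t : ℝ) : ℝ := t / 2 * Real.log (t / (2 * Real.pi * Real.exp 1)) - Real.pi / 8

/-- the twisted Hardy function -/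
noncomputable def Z (θ : ℕ → ℝ) (t : ℝ) : ℝ := 2 * (Complex.exp (fi t * Complex.I) * S θ (Nf t) t).re

/-- `(1/T) ∫_0^T Z^{2k}` -/
noncomputable def M (θ : ℕ → ℝ) (k : ℕ) (T : ℝ) : ℝ := 1 / T * ∫ t in (0:ℝ)..T, Z θ t ^ (2 * k)

/-- tuples in `[1,N]^j` -/
def tp (j N : ℕ) : Finset (Fin j → ℕ) := Fintype.piFinset fun _ => Icc 1 N

/-- the product of the entries -/
def pd {j : ℕ} (v : Fin j → ℕ) : ℕ := ∏ i, v i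

/-- the height from which on the term of `(v,w)` is present: `2π (max entry)²` -/
noncomputable def tq {j l : ℕ} (v : Fin j → ℕ) (w : Fin l → ℕ) : ℝ :=
  2 * Real.pi * ((max (univ.sup v) (univ.sup w) : ℕ) : ℝ) ^ 2

/-- `(1/T) ∫_{tq}^T e^{i(2hφ(t) - t(log ∏v - log ∏w))} dt` -/
noncomputable def Kk {j l : ℕ} (h : ℤ) (T : ℝ) (v : Fin j → ℕ) (w : Fin l → ℕ) : ℂ :=
  1 / (T : ℂ) * ∫ t in (tq v w)..T,
    Complex.exp (((2 * h * fi t - t * (Real.log (pd v) - Real.log (pd w)) : ℝ) : ℂ) * Complex.I)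

/-- `(1/T) ∫_0^T e^{2ihφ(t)} S^j conj(S)^l dt` -/
noncomputable def X (θ : ℕ → ℝ) (j l : ℕ) (h : ℤ) (T : ℝ) : ℂ :=
  1 / (T : ℂ) * ∫ t in (0:ℝ)..T, Complex.exp (((2 * h * fi t : ℝ) : ℂ) * Complex.I) *
    S θ (Nf t) t ^ j * (starRingEnd ℂ) (S θ (Nf t) t) ^ l

/-- the mean of `A_k(Nf t)` -/
noncomputable def Ab (k : ℕ) (T : ℝ) : ℝ := 1 / T * ∫ t in (0:ℝ)..T, A k (Nf t)

/-- SM (30 min, Deps: MUL). On `2πN² ≤ t < 2π(N+1)²` the sum has the fixed length `N`; so `(θ,t) ↦ S θ (Nf t) t` is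
measurable (countably many pieces, each continuous) and `|S| ≤ Nf t ≤ t + 1`. -/
def S_SM : Prop := Measurable (fun q : (ℕ → ℝ) × ℝ => S q.1 (Nf q.2) q.2) ∧
  (∀ θ : ℕ → ℝ, Measurable (fun t : ℝ => S θ (Nf t) t)) ∧ (∀ (θ : ℕ → ℝ) (t : ℝ), ‖S θ (Nf t) t‖ ≤ Nf t) ∧
  (∀ t : ℝ, 0 ≤ t → (Nf t : ℝ) ≤ t + 1) ∧ (∀ s t : ℝ, s ≤ t → Nf s ≤ Nf t)

/-- MM (30 min, Deps: SM). `|Z| ≤ 2 (T+1)` on `[0,T]`; `M` is measurable in `θ` (integral of a jointly measurable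
function, `StronglyMeasurable.integral_prod_right'`), bounded, and `T M(T)` is nondecreasing. -/
def S_MM : Prop := ∀ k : ℕ, (∀ T : ℝ, 0 < T → Measurable (fun θ : ℕ → ℝ => M θ k T) ∧
    (∀ θ : ℕ → ℝ, 0 ≤ M θ k T ∧ M θ k T ≤ (2 * (T + 1)) ^ (2 * k))) ∧
  ∀ (θ : ℕ → ℝ) (s T : ℝ), 0 < s → s ≤ T → s * M θ k s ≤ T * M θ k T

/-- EXPZ (30 min, Deps: SM). With `E = e^{iφ}S`: `Z = E + conj E`, binomial theorem
`Z^{2k} = ∑_j binom(2k,j) E^j conj(E)^{2k-j}`, and `e^{iφ j} e^{-iφ(2k-j)} = e^{2i(j-k)φ}`; integrate the finite sum (all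
integrands are measurable and bounded on `[0,T]`). -/
def S_EXPZ : Prop := ∀ (θ : ℕ → ℝ) (k : ℕ) (T : ℝ), 0 < T →
  ((M θ k T : ℝ) : ℂ) = ∑ j ∈ range (2 * k + 1), ((2 * k).choose j : ℂ) * X θ j (2 * k - j) ((j : ℤ) - k) T

/-- XTUP (45 min, Deps: MUL). Expand the powers (`Finset.prod_univ_sum`):
`S^j conj(S)^l = ∑_{v,w ∈ [1,N(t)]} f(∏v) conj f(∏w) (∏v ∏w)^{-1/2} e^{-it(log∏v - log∏w)}`, where the tuple `(v,w)` with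
entries in `[1, Nf T]` occurs at `t` exactly if its maximal entry is `≤ Nf t`, that is `t ≥ tq v w`. -/
def S_XTUP : Prop := ∀ (θ : ℕ → ℝ) (j l : ℕ) (h : ℤ) (T : ℝ), 0 < T → 1 ≤ j + l →
  X θ j l h T = ∑ q ∈ tp j (Nf T) ×ˢ tp l (Nf T),
    ((1 / Real.sqrt ((pd q.1 : ℝ) * pd q.2) : ℝ) : ℂ) * Kk h T q.1 q.2 * tw θ (pd q.1) * (starRingEnd ℂ) (tw θ (pd q.2))

/-- VG (30 min, Deps: MUL, OR). Expand the square; the expectation of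
`f(m_i) conj f(n_i) conj f(m_i') f(n_i')` is `1` if `m_i n_i' = m_i' n_i`, else `0`. -/
def S_VG : Prop := ∀ (ι : Type) (I : Finset ι) (m n : ι → ℕ) (c : ι → ℝ) (K : ι → ℂ),
  (∀ i ∈ I, m i ≠ 0 ∧ n i ≠ 0 ∧ 0 ≤ c i) →
  ∫ θ, ‖∑ i ∈ I, (c i : ℂ) * K i * tw θ (m i) * (starRingEnd ℂ) (tw θ (n i))‖ ^ 2 ∂P ≤
    ∑ i ∈ I, ∑ i' ∈ I, if m i * n i' = m i' * n i then c i * c i' * (‖K i‖ * ‖K i'‖) else 0

/-- VDC (35 min, no Deps). Second derivative test: `φ''(t) = 1/(2t)`, so the phase `ψ = 2hφ - tL` has `|ψ''| = |h|/t ≥ 1/T`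
on `(0,T]` and the integral is `≤ 8 √T` (`ψ'` is monotone: cut out an interval of length `≤ 2√T` where `|ψ'| < T^{-1/2}`,
first derivative test on the rest; there are second derivative tests in the library, e.g. grep -i second derivative). -/
def S_VDC : Prop := ∃ C : ℝ, 0 < C ∧ ∀ (h : ℤ) (L a b T : ℝ), h ≠ 0 → 0 < a → a ≤ b → b ≤ T →
  ‖∫ t in a..b, Complex.exp (((2 * h * fi t - t * L : ℝ) : ℂ) * Complex.I)‖ ≤ C * Real.sqrt T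

/-- AUP (15 min, Deps: LIM). `A_k(N) ~ c (log N)^{k²} ≤ C N^ε`. (`k = 0`: `A_0(N) = 1`.) -/
def S_AUP : Prop := ∀ (k : ℕ) (ε : ℝ), 1 ≤ k → 0 < ε → ∃ C : ℝ, 0 < C ∧ ∀ N : ℕ, 1 ≤ N → A k N ≤ C * (N : ℝ) ^ ε

/-- QT (30 min, no Deps). Put `V = (v,w')`, `W = (v',w)` in `[1,N]^{j+l}`: the condition is `∏V = ∏W`, the weight is
`1/√(∏V ∏W) = 1/∏V`; so the sum equals `A_{j+l}(N)`. -/
def S_QT : Prop := ∀ j l N : ℕ,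
  ∑ q ∈ tp j N ×ˢ tp l N, ∑ r ∈ tp j N ×ˢ tp l N,
    (if pd q.1 * pd r.2 = pd r.1 * pd q.2 then
      1 / Real.sqrt ((pd q.1 : ℝ) * pd q.2) * (1 / Real.sqrt ((pd r.1 : ℝ) * pd r.2)) else 0) ≤ A (j + l) N

/-- QSB (25 min, Deps: QUAD, RSB, DIV). As in RT/VAR.lean. -/
def S_QSB : Prop := ∀ (k : ℕ) (ε : ℝ), 1 ≤ k → 0 < ε → ∃ C : ℝ, 0 < C ∧ ∀ N : ℕ, 1 ≤ N →
  QS (fun m => (b k N m : ℝ) / Real.sqrt m) (N ^ k) ≤ C * (N : ℝ) ^ ε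

/-- QD (35 min, no Deps). Group by `(m,n,m',n') = (∏v,∏w,∏v',∏w')`: the number of tuples with product `m` is
`b k N m`. -/
def S_QD : Prop := ∀ k N : ℕ,
  ∑ q ∈ tp k N ×ˢ tp k N, ∑ r ∈ tp k N ×ˢ tp k N,
    (if pd q.1 * pd r.2 = pd r.1 * pd q.2 ∧ pd q.1 ≠ pd q.2 then
      1 / Real.sqrt ((pd q.1 : ℝ) * pd q.2) * (1 / Real.sqrt ((pd r.1 : ℝ) * pd r.2)) /
        |Real.log (pd q.1) - Real.log (pd q.2)| else 0) ≤ QS (fun m => (b k N m : ℝ) / Real.sqrt m) (N ^ k)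

/-- VJ1 (30 min, Deps: XTUP, VG, VDC, QT, AUP). `|Kk| ≤ C T^{-1/2}` for `h = j - k ≠ 0` (`0 < tq ≤ T` for entries in
`[1, Nf T]`), so the second moment is `≤ (C²/T) A_{2k}(Nf T) ≤ C T^{ε-1}`. -/
def S_VJ1 : Prop := ∀ (k j : ℕ) (ε : ℝ), 1 ≤ k → j ≤ 2 * k → j ≠ k → 0 < ε → ∃ C : ℝ, 0 < C ∧ ∀ T : ℝ, 1 ≤ T →
  ∫ θ, ‖X θ j (2 * k - j) ((j : ℤ) - k) T‖ ^ 2 ∂P ≤ C * T ^ (ε - 1)

/-- VJ2 (45 min, Deps: XTUP, VG, QD, QSB). The pairs with `∏v = ∏w` give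
`∑ (1/∏v) (T - tq)/T = Ab k T` (they are present at `t` iff `v, w ∈ [1, Nf t]`); for the others
`|Kk| ≤ 1` and `|Kk| ≤ 2/(T |log ∏v - log ∏w|)`; VG, QD, QSB. -/
def S_VJ2 : Prop := ∀ (k : ℕ) (ε : ℝ), 1 ≤ k → 0 < ε → ∃ C : ℝ, 0 < C ∧ ∀ T : ℝ, 1 ≤ T →
  ∫ θ, ‖X θ k k 0 T - (Ab k T : ℂ)‖ ^ 2 ∂P ≤ C * T ^ (ε - 1)

/-- AB (35 min, Deps: LIM). `A k (Nf t) / (log t)^{k²} → gam k / 2^{k²}` (`log Nf t ~ (log t)/2`), and the mean of a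
function `~ c (log t)^K` over `[0,T]` is `~ c (log T)^K` (on `[0, εT]` bound by monotonicity of `A`, on `[εT, T]`
`log t / log T → 1`). -/
def S_AB : Prop := ∀ k : ℕ, 1 ≤ k →
  Tendsto (fun T : ℝ => Ab k T / Real.log T ^ (k ^ 2)) atTop (𝓝 (gam k / 2 ^ (k ^ 2)))

/-- YB (30 min, Deps: EXPZ, VJ1, VJ2, MM, SM, XTUP, MUL). `M - binom(2k,k) Ab = ∑_{j ≠ k} binom X_j + binom(2k,k) (X_k - Ab)`;
`|∑ a_j|² ≤ (2k+1) ∑ |a_j|²`. (The `X θ j ..` are bounded and measurable in `θ`.) -/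
def S_YB : Prop := ∀ (k : ℕ) (ε : ℝ), 1 ≤ k → 0 < ε → ∃ C : ℝ, 0 < C ∧ ∀ T : ℝ, 1 ≤ T →
  ∫ θ, (M θ k T - ((2 * k).choose k : ℝ) * Ab k T) ^ 2 ∂P ≤ C * T ^ (ε - 1)

/-- FINR (40 min, Deps: YB, AE, MM, AB). Grid `T_j = j^4`: the second moments are `≤ C j^{-3}` (`ε = 1/4`), so almost surely
`M(j^4) - binom Ab(j^4) → 0`, hence `M(j^4)/(log j^4)^{k²}` has the limit; `T M(T)` is nondecreasing (MM), as in
RT/INTT.lean. All `k` at once (countable). -/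
def S_FINR : Prop := ∀ᵐ θ ∂P, ∀ k : ℕ, 1 ≤ k →
  Tendsto (fun T : ℝ => M θ k T / Real.log T ^ (k ^ 2)) atTop
    (𝓝 (((2 * k).choose k : ℝ) * (gam k / 2 ^ (k ^ 2))))

end Pool.Agent.T2H98.RS
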