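import Pool.Agent.T2H98.RS.Stm

set_option autoImplicit false

open MeasureTheory Filter Topology Finset

namespace Pool.Agent.T2H98.RS

open Pool.Agent.T2H98.RT (P tw S A b gam QS S_MUL S_OR S_LIM S_AE S_QUAD S_RSB S_DIV)

namespace AB

lemma Nf_meas : Measurable Nf := by
  unfold Nf
  exact Nat.measurable_floor.comp (Real.continuous_sqrt.comp (continuous_id.div_const _)).measurable

lemma Nf_le (t : ℝ) (ht : 0 ≤ t) : (Nf t : ℝ) ≤ t + 1 := by
  unfold Nf
  refine (Nat.floor_le (Real.sqrt_nonneg _)).trans ?_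
  rw [Real.sqrt_le_left (by linarith)]
  have h1 : t / (2 * Real.pi) ≤ t := by
    apply div_le_self ht
    linarith [Real.pi_gt_three]
  nlinarith

lemma A_bound (hLIM : S_LIM) (k : ℕ) (hk : 1 ≤ k) : ∃ C : ℝ, 0 ≤ C ∧ ∀ N : ℕ, |A k N| ≤ C * (1 + Real.log N ^ (k ^ 2)) := by
  have h := hLIM k hk
  have h1 := (tendsto_order.1 h.abs).2 (|gam k| + 1) (by linarith)
  obtain ⟨N₀, hN₀⟩ := eventually_atTop.1 h1
  refine ⟨∑ i ∈ range (max N₀ 2), |A k i| + (|gam k| + 1), by positivity, fun N => ?_⟩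
  have hl : 0 ≤ Real.log N := Real.log_natCast_nonneg N
  have hlp : 0 ≤ Real.log N ^ (k ^ 2) := by positivity
  by_cases hN : N < max N₀ 2
  · have h2 : |A k N| ≤ ∑ i ∈ range (max N₀ 2), |A k i| :=
      single_le_sum (f := fun i => |A k i|) (fun i _ => abs_nonneg _) (mem_range.2 hN)
    have h3 : 0 ≤ |gam k| + 1 := by positivity
    nlinarith [mul_nonneg (add_nonneg (le_trans (abs_nonneg _) h2) h3) hlp]
  · push Not at hN
    have h2 := hN₀ N ((le_max_left _ _).trans hN)
    have hN2 : 2 ≤ N := (le_max_right _ _).trans hN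
    have hlpos : 0 < Real.log N := Real.log_pos (by exact_mod_cast hN2)
    have hlp' : 0 < Real.log N ^ (k ^ 2) := by positivity
    rw [abs_div, abs_of_pos hlp', div_lt_iff₀ hlp'] at h2
    have h3 : 0 ≤ ∑ i ∈ range (max N₀ 2), |A k i| := sum_nonneg fun i _ => abs_nonneg _
    have h4 : 0 ≤ |gam k| + 1 := by positivity
    nlinarith [mul_nonneg h3 hlp]

lemma Nf_tend (u : ℝ) (hu : 0 < u) : Tendsto (fun T : ℝ => Nf (T * u)) atTop atTop := by
  unfold Nf
  refine tendsto_nat_floor_atTop.comp (Real.tendsto_sqrt_atTop.comp ?_)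
  have : (fun T : ℝ => T * u / (2 * Real.pi)) = fun T : ℝ => T * (u / (2 * Real.pi)) := by
    funext T
    ring
  rw [this]
  exact tendsto_id.atTop_mul_const (by positivity)

lemma log_ratio (u : ℝ) (hu : 0 < u) :
    Tendsto (fun T : ℝ => Real.log (Nf (T * u)) / Real.log T) atTop (𝓝 (1 / 2)) := by
  have hpi := Real.pi_pos
  have hs : Tendsto (fun T : ℝ => Real.sqrt (T * u / (2 * Real.pi))) atTop atTop := by
    refine Real.tendsto_sqrt_atTop.comp ?_
    have : (fun T : ℝ => T * u / (2 * Real.pi)) = fun T : ℝ => T * (u / (2 * Real.pi)) := by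
      funext T
      ring
    rw [this]
    exact tendsto_id.atTop_mul_const (by positivity)
  have h1 : Tendsto (fun T : ℝ => (Nf (T * u) : ℝ) / Real.sqrt (T * u / (2 * Real.pi))) atTop (𝓝 1) :=
    (tendsto_nat_floor_div_atTop (R := ℝ)).comp hs
  have h2 : Tendsto (fun T : ℝ => Real.log ((Nf (T * u) : ℝ) / Real.sqrt (T * u / (2 * Real.pi)))) atTop (𝓝 0) := by
    have := (Real.continuousAt_log one_ne_zero).tendsto.comp h1
    rwa [Real.log_one] at this
  have h3 : Tendsto (fun T : ℝ => 1 / 2 + (1 / 2 * Real.log (u / (2 * Real.pi)) +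
      Real.log ((Nf (T * u) : ℝ) / Real.sqrt (T * u / (2 * Real.pi)))) / Real.log T) atTop (𝓝 (1 / 2 + 0)) := by
    refine tendsto_const_nhds.add ?_
    exact (tendsto_const_nhds.add h2).div_atTop Real.tendsto_log_atTop
  rw [add_zero] at h3
  refine h3.congr' ?_
  filter_upwards [eventually_gt_atTop 1, (Nf_tend u hu).eventually (eventually_ge_atTop 1)] with T hT hN
  have hT0 : 0 < T := by linarith
  have hlT : 0 < Real.log T := Real.log_pos hT
  have hN0 : (0 : ℝ) < Nf (T * u) := by exact_mod_cast hN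
  have hx : 0 < T * u / (2 * Real.pi) := by positivity
  have hsq : 0 < Real.sqrt (T * u / (2 * Real.pi)) := Real.sqrt_pos.2 hx
  rw [Real.log_div hN0.ne' hsq.ne', Real.log_sqrt hx.le]
  have h4 : Real.log (T * u / (2 * Real.pi)) = Real.log T + Real.log (u / (2 * Real.pi)) := by
    rw [← Real.log_mul hT0.ne' (by positivity)]
    congr 1
    ring
  rw [h4]
  field_simp
  ring

lemma pointwise (hLIM : S_LIM) (k : ℕ) (hk : 1 ≤ k) (u : ℝ) (hu : 0 < u) :
    Tendsto (fun T : ℝ => A k (Nf (T * u)) / Real.log T ^ (k ^ 2)) atTop (𝓝 (gam k / 2 ^ (k ^ 2))) := by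
  have h1 := (hLIM k hk).comp (Nf_tend u hu)
  have h2 := h1.mul ((log_ratio u hu).pow (k ^ 2))
  have h3 : gam k * (1 / 2) ^ (k ^ 2) = gam k / 2 ^ (k ^ 2) := by
    rw [div_pow, one_pow]
    ring
  rw [h3] at h2
  refine h2.congr' ?_
  filter_upwards [eventually_gt_atTop 1, (Nf_tend u hu).eventually (eventually_ge_atTop 2)] with T hT hN
  have hl : 0 < Real.log (Nf (T * u)) := Real.log_pos (by exact_mod_cast hN)
  have hlT : 0 < Real.log T := Real.log_pos hT
  simp only [Function.comp]
  rw [div_pow]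
  field_simp

lemma change (k : ℕ) (T : ℝ) (hT : 0 < T) : Ab k T = ∫ u in (0:ℝ)..1, A k (Nf (T * u)) := by
  unfold Ab
  rw [intervalIntegral.integral_comp_mul_left (fun t => A k (Nf t)) hT.ne', mul_zero, mul_one, smul_eq_mul, one_div]

end AB

theorem pAB (hLIM : S_LIM) : S_AB := by
  intro k hk
  obtain ⟨C, hC, hb⟩ := AB.A_bound hLIM k hk
  have h1 : Tendsto (fun T : ℝ => ∫ u in (0:ℝ)..1, A k (Nf (T * u)) / Real.log T ^ (k ^ 2)) atTop
      (𝓝 (∫ u in (0:ℝ)..1, gam k / 2 ^ (k ^ 2))) := by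
    refine intervalIntegral.tendsto_integral_filter_of_dominated_convergence
      (fun _ => C * (1 + 2 ^ (k ^ 2))) ?_ ?_ ?_ ?_
    · refine Eventually.of_forall fun T => Measurable.aestronglyMeasurable ?_
      have h2 : Measurable (fun N : ℕ => A k N) := measurable_from_nat
      exact (h2.comp (AB.Nf_meas.comp (measurable_const.mul measurable_id))).div_const _
    · filter_upwards [eventually_ge_atTop (Real.exp 1)] with T hT
      refine Eventually.of_forall fun u hu => ?_
      rw [Set.uIoc_of_le zero_le_one] at hu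
      have he : (2 : ℝ) ≤ Real.exp 1 := by
        have := Real.add_one_le_exp 1
        linarith
      have hT2 : 2 ≤ T := he.trans hT
      have hT0 : 0 < T := by linarith
      have hlT : 1 ≤ Real.log T := by
        rw [Real.le_log_iff_exp_le hT0]
        exact hT
      have hp : 1 ≤ Real.log T ^ (k ^ 2) := one_le_pow₀ hlT
      rw [Real.norm_eq_abs, abs_div, abs_of_nonneg (by positivity : (0:ℝ) ≤ Real.log T ^ (k ^ 2)), div_le_iff₀ (by positivity)]
      have h2 := hb (Nf (T * u))
      have h3 : (Nf (T * u) : ℝ) ≤ T ^ 2 := by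
        have h4 := AB.Nf_le (T * u) (mul_nonneg hT0.le hu.1.le)
        have h5 : T * u ≤ T := mul_le_of_le_one_right hT0.le hu.2
        nlinarith
      have h6 : Real.log (Nf (T * u)) ≤ 2 * Real.log T := by
        rcases Nat.eq_zero_or_pos (Nf (T * u)) with h0 | h0
        · rw [h0]
          simp
          linarith
        · have h7 : (0 : ℝ) < Nf (T * u) := by exact_mod_cast h0
          have h8 := Real.log_le_log h7 h3
          rw [Real.log_pow] at h8
          exact_mod_cast h8
      have h9 : Real.log (Nf (T * u)) ^ (k ^ 2) ≤ 2 ^ (k ^ 2) * Real.log T ^ (k ^ 2) := by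
        rw [← mul_pow]
        exact pow_le_pow_left₀ (Real.log_natCast_nonneg _) h6 _
      calc |A k (Nf (T * u))| ≤ C * (1 + Real.log (Nf (T * u)) ^ (k ^ 2)) := h2
        _ ≤ C * (Real.log T ^ (k ^ 2) + 2 ^ (k ^ 2) * Real.log T ^ (k ^ 2)) := by gcongr
        _ = C * (1 + 2 ^ (k ^ 2)) * Real.log T ^ (k ^ 2) := by ring
    · exact intervalIntegrable_const
    · refine Eventually.of_forall fun u hu => ?_
      rw [Set.uIoc_of_le zero_le_one] at hu
      exact AB.pointwise hLIM k hk u hu.1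
  rw [intervalIntegral.integral_const, sub_zero, one_smul] at h1
  refine h1.congr' ?_
  filter_upwards [eventually_gt_atTop 0] with T hT
  rw [AB.change k T hT, intervalIntegral.integral_div]

end Pool.Agent.T2H98.RS
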