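import Pool.Agent.T2H98.RS.Stm

set_option autoImplicit false

open MeasureTheory Filter Topology Finset

namespace Pool.Agent.T2H98.RS

open Pool.Agent.T2H98.RT (P tw S A b gam QS S_MUL S_OR S_LIM S_AE S_QUAD S_RSB S_DIV)

theorem pAUP (hLIM : S_LIM) : S_AUP := by
  intro k ε hk hε
  have h1 := hLIM k hk
  have h2 : Tendsto (fun N : ℕ => Real.log N ^ (k ^ 2) / (N : ℝ) ^ ε) atTop (𝓝 0) := by
    have h := (isLittleO_log_rpow_rpow_atTop ((k ^ 2 : ℕ) : ℝ) hε).tendsto_div_nhds_zero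
    have h' := h.comp tendsto_natCast_atTop_atTop
    refine h'.congr fun N => ?_
    simp only [Function.comp_apply, Real.rpow_natCast]
  have h3 : Tendsto (fun N : ℕ => A k N / (N : ℝ) ^ ε) atTop (𝓝 (gam k * 0)) := by
    refine (h1.mul h2).congr' ?_
    filter_upwards [eventually_ge_atTop 2] with N hN
    have hl : 0 < Real.log N := Real.log_pos (by exact_mod_cast hN)
    have hp : Real.log N ^ (k ^ 2) ≠ 0 := pow_ne_zero _ hl.ne'
    field_simp
  obtain ⟨B, hB⟩ := h3.bddAbove_range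
  refine ⟨max B 1, lt_max_of_lt_right one_pos, fun N hN => ?_⟩
  have h4 : A k N / (N : ℝ) ^ ε ≤ B := hB ⟨N, rfl⟩
  have h5 : 0 < (N : ℝ) ^ ε := Real.rpow_pos_of_pos (by exact_mod_cast hN) _
  rw [div_le_iff₀ h5] at h4
  exact h4.trans (mul_le_mul_of_nonneg_right (le_max_left _ _) h5.le)

end Pool.Agent.T2H98.RS
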