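import Pool.Agent.T2H98.RS.Stm

/-! # Project RS, package EXPZ: expansion of the even moments of the twisted Hardy function -/

set_option autoImplicit false

open MeasureTheory Filter Topology Finset

namespace Pool.Agent.T2H98.RS

open Pool.Agent.T2H98.RT (P tw S A b gam QS S_MUL S_OR S_LIM S_AE S_QUAD S_RSB S_DIV)

namespace EXPZ

theorem meas_fi : Measurable fi := by unfold fi; fun_prop

/-- the integrand of `X` -/
noncomputable def g (θ : ℕ → ℝ) (j l : ℕ) (h : ℤ) (t : ℝ) : ℂ :=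
  Complex.exp (((2 * h * fi t : ℝ) : ℂ) * Complex.I) * S θ (Nf t) t ^ j * (starRingEnd ℂ) (S θ (Nf t) t) ^ l

theorem g_meas (hSM : S_SM) (θ : ℕ → ℝ) (j l : ℕ) (h : ℤ) : Measurable (g θ j l h) := by
  have m1 : Measurable (fun t : ℝ => Complex.exp (((2 * h * fi t : ℝ) : ℂ) * Complex.I)) := by
    have := meas_fi
    fun_prop
  have m2 := hSM.2.1 θ
  have m3 : Measurable (fun t : ℝ => (starRingEnd ℂ) (S θ (Nf t) t)) :=
    Complex.continuous_conj.measurable.comp m2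
  unfold g
  exact (m1.mul (m2.pow_const j)).mul (m3.pow_const l)

theorem g_bd (hSM : S_SM) (θ : ℕ → ℝ) (j l : ℕ) (h : ℤ) (T t : ℝ) (h0 : 0 ≤ t) (hT : t ≤ T) :
    ‖g θ j l h t‖ ≤ (T + 1) ^ (j + l) := by
  have h1 : ‖S θ (Nf t) t‖ ≤ T + 1 :=
    ((hSM.2.2.1 θ t).trans (hSM.2.2.2.1 t h0)).trans (by linarith)
  unfold g
  rw [norm_mul, norm_mul, Complex.norm_exp_ofReal_mul_I, one_mul, norm_pow, norm_pow,
    RCLike.norm_conj, ← pow_add]
  exact pow_le_pow_left₀ (norm_nonneg _) h1 _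

theorem g_int (hSM : S_SM) (θ : ℕ → ℝ) (j l : ℕ) (h : ℤ) (T : ℝ) (hT : 0 < T) :
    IntervalIntegrable (g θ j l h) volume 0 T := by
  rw [intervalIntegrable_iff_integrableOn_Ioc_of_le hT.le]
  refine Measure.integrableOn_of_bounded (M := (T + 1) ^ (j + l)) (by simp)
    (g_meas hSM θ j l h).aestronglyMeasurable ?_
  exact (ae_restrict_mem measurableSet_Ioc).mono fun t ht => g_bd hSM θ j l h T t ht.1.le ht.2

theorem pointwise (θ : ℕ → ℝ) (k : ℕ) (t : ℝ) :
    (((Z θ t) ^ (2 * k) : ℝ) : ℂ) =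
      ∑ j ∈ range (2 * k + 1), ((2 * k).choose j : ℂ) * g θ j (2 * k - j) ((j : ℤ) - k) t := by
  set E : ℂ := Complex.exp (fi t * Complex.I) * S θ (Nf t) t with hE
  have hZ : ((Z θ t : ℝ) : ℂ) = E + (starRingEnd ℂ) E := by
    rw [Complex.add_conj]; simp [Z, hE]
  rw [Complex.ofReal_pow, hZ, add_pow]
  refine Finset.sum_congr rfl fun j hj => ?_
  have hj' : j ≤ 2 * k := by rw [Finset.mem_range] at hj; omega
  rw [mul_comm]
  congr 1
  have hc : (starRingEnd ℂ) E = Complex.exp (-(fi t * Complex.I)) * (starRingEnd ℂ) (S θ (Nf t) t) := by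
    rw [hE, map_mul, ← Complex.exp_conj, map_mul, Complex.conj_ofReal, Complex.conj_I, mul_neg]
  have he : Complex.exp (fi t * Complex.I) ^ j * Complex.exp (-(fi t * Complex.I)) ^ (2 * k - j) =
      Complex.exp (((2 * ((j : ℤ) - k : ℤ) * fi t : ℝ) : ℂ) * Complex.I) := by
    rw [← Complex.exp_nat_mul, ← Complex.exp_nat_mul, ← Complex.exp_add]
    congr 1
    push_cast [Nat.cast_sub hj']
    ring
  unfold g
  rw [hc, hE, mul_pow, mul_pow, ← he]
  ring

end EXPZ

open EXPZ in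
theorem pEXPZ (hSM : S_SM) : S_EXPZ := by
  intro θ k T hT
  have h1 : ((M θ k T : ℝ) : ℂ) = 1 / (T : ℂ) * ∫ t in (0:ℝ)..T, (((Z θ t) ^ (2 * k) : ℝ) : ℂ) := by
    unfold M
    rw [Complex.ofReal_mul, ← intervalIntegral.integral_ofReal]
    push_cast
    rfl
  rw [h1]
  simp_rw [pointwise]
  rw [intervalIntegral.integral_finsetSum (fun j _ => (g_int hSM θ j _ _ T hT).const_mul _), Finset.mul_sum]
  refine Finset.sum_congr rfl fun j _ => ?_
  rw [intervalIntegral.integral_const_mul]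
  unfold X g
  ring

end Pool.Agent.T2H98.RS
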