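import Pool.Agent.T2H98.RS.Stm

/-!
# FINR: the asymptotics of all moments for almost every twist
-/

set_option autoImplicit false

open MeasureTheory Filter Topology Finset

namespace Pool.Agent.T2H98.RS

open Pool.Agent.T2H98.RT (P tw S A b gam QS S_MUL S_OR S_LIM S_AE S_QUAD S_RSB S_DIV)

namespace FINR

theorem ratio_lim : Tendsto (fun j : ℕ => (((j : ℝ) + 1) ^ 4 / (j : ℝ) ^ 4)) atTop (𝓝 1) := by
  have h1 : Tendsto (fun j : ℕ => 1 + 1 / (j : ℝ)) atTop (𝓝 (1 + 0)) :=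
    tendsto_const_nhds.add tendsto_one_div_atTop_nhds_zero_nat
  have h2 := h1.pow 4
  rw [add_zero, one_pow] at h2
  apply h2.congr'
  filter_upwards [eventually_gt_atTop 0] with j hj
  have hj' : (j : ℝ) ≠ 0 := Nat.cast_ne_zero.mpr (by omega)
  rw [← div_pow, add_div, div_self hj']

theorem log_lim : Tendsto (fun j : ℕ => Real.log (((j : ℝ) + 1) ^ 4) / Real.log ((j : ℝ) ^ 4))
    atTop (𝓝 1) := by
  have h1 : Tendsto (fun j : ℕ => 1 + 1 / (j : ℝ)) atTop (𝓝 (1 + 0)) :=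
    tendsto_const_nhds.add tendsto_one_div_atTop_nhds_zero_nat
  rw [add_zero] at h1
  refine tendsto_of_tendsto_of_tendsto_of_le_of_le' tendsto_const_nhds h1 ?_ ?_
  · filter_upwards [eventually_ge_atTop 3] with j hj
    have hj' : (3 : ℝ) ≤ j := by exact_mod_cast hj
    have h0 : 0 < Real.log ((j : ℝ) ^ 4) := Real.log_pos (by
      have : (1 : ℝ) < j := by linarith
      exact one_lt_pow₀ this (by norm_num))
    rw [le_div_iff₀ h0, one_mul]
    apply Real.log_le_log (by positivity)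
    exact pow_le_pow_left₀ (by positivity) (by linarith) 4
  · filter_upwards [eventually_ge_atTop 3] with j hj
    have hj' : (3 : ℝ) ≤ j := by exact_mod_cast hj
    have hj0 : (0 : ℝ) < j := by linarith
    have hlog1 : 1 ≤ Real.log (j : ℝ) := by
      rw [Real.le_log_iff_exp_le hj0]
      have := Real.exp_one_lt_d9
      linarith
    rw [Real.log_pow, Real.log_pow]
    have h2 : Real.log ((j : ℝ) + 1) ≤ Real.log j + 1 / j := by
      have h3 : Real.log ((j : ℝ) + 1) = Real.log j + Real.log (1 + 1 / j) := by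
        rw [← Real.log_mul hj0.ne' (by positivity)]
        congr 1
        field_simp
      have h4 : Real.log (1 + 1 / (j : ℝ)) ≤ 1 / j := by
        have := Real.log_le_sub_one_of_pos (by positivity : (0 : ℝ) < 1 + 1 / j)
        linarith
      linarith
    rw [div_le_iff₀ (by positivity)]
    have h5 : (1 : ℝ) / j ≤ 1 / j * Real.log j := by
      have : (0 : ℝ) < 1 / j := by positivity
      nlinarith
    push_cast
    nlinarith

/-- from the grid to all `T` -/
theorem grid (F : ℝ → ℝ) (K : ℕ) (g : ℝ) (hF0 : ∀ T, 0 < T → 0 ≤ F T)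
    (hmono : ∀ s T : ℝ, 0 < s → s ≤ T → s * F s ≤ T * F T)
    (hgrid : Tendsto (fun j : ℕ => F ((j : ℝ) ^ 4) / Real.log ((j : ℝ) ^ 4) ^ K) atTop (𝓝 g)) :
    Tendsto (fun T : ℝ => F T / Real.log T ^ K) atTop (𝓝 g) := by
  have hJ : Tendsto (fun T : ℝ => ⌊Real.sqrt (Real.sqrt T)⌋₊) atTop atTop :=
    tendsto_nat_floor_atTop.comp (Real.tendsto_sqrt_atTop.comp Real.tendsto_sqrt_atTop)
  have hU : Tendsto (fun j : ℕ => (((j : ℝ) + 1) ^ 4 / (j : ℝ) ^ 4) *
      (Real.log (((j : ℝ) + 1) ^ 4) / Real.log ((j : ℝ) ^ 4)) ^ K *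
      (F (((j : ℝ) + 1) ^ 4) / Real.log (((j : ℝ) + 1) ^ 4) ^ K)) atTop (𝓝 g) := by
    have h1 : Tendsto (fun j : ℕ => F (((j : ℝ) + 1) ^ 4) / Real.log (((j : ℝ) + 1) ^ 4) ^ K)
        atTop (𝓝 g) := by
      have h2 := (tendsto_add_atTop_iff_nat 1).mpr hgrid
      refine h2.congr fun j => ?_
      push_cast
      rfl
    have h3 := (ratio_lim.mul (log_lim.pow K)).mul h1
    rw [one_pow, one_mul, one_mul] at h3
    exact h3
  have hV : Tendsto (fun j : ℕ => (((j : ℝ) + 1) ^ 4 / (j : ℝ) ^ 4)⁻¹ *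
      ((Real.log (((j : ℝ) + 1) ^ 4) / Real.log ((j : ℝ) ^ 4)) ^ K)⁻¹ *
      (F ((j : ℝ) ^ 4) / Real.log ((j : ℝ) ^ 4) ^ K)) atTop (𝓝 g) := by
    have h3 := ((ratio_lim.inv₀ one_ne_zero).mul ((log_lim.pow K).inv₀ (by
      rw [one_pow]; exact one_ne_zero))).mul hgrid
    rw [one_pow, inv_one, one_mul, one_mul] at h3
    exact h3
  refine tendsto_of_tendsto_of_tendsto_of_le_of_le' (hV.comp hJ) (hU.comp hJ) ?_ ?_
  all_goals
    filter_upwards [hJ.eventually_ge_atTop 2, eventually_ge_atTop 1] with T hj2 hT1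
    simp only [Function.comp_apply]
    set j : ℕ := ⌊Real.sqrt (Real.sqrt T)⌋₊ with hj
    have hj2' : (2 : ℝ) ≤ j := by exact_mod_cast hj2
    have hroot : (Real.sqrt (Real.sqrt T)) ^ 4 = T := by
      have h1 : (Real.sqrt (Real.sqrt T)) ^ 4 = ((Real.sqrt (Real.sqrt T)) ^ 2) ^ 2 := by ring
      rw [h1, Real.sq_sqrt (Real.sqrt_nonneg _), Real.sq_sqrt (by linarith)]
    have haT : (j : ℝ) ^ 4 ≤ T := by
      calc (j : ℝ) ^ 4 ≤ (Real.sqrt (Real.sqrt T)) ^ 4 :=
            pow_le_pow_left₀ (Nat.cast_nonneg _) (Nat.floor_le (Real.sqrt_nonneg _)) 4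
        _ = T := hroot
    have hTb : T ≤ ((j : ℝ) + 1) ^ 4 := by
      calc T = (Real.sqrt (Real.sqrt T)) ^ 4 := hroot.symm
        _ ≤ ((j : ℝ) + 1) ^ 4 :=
            pow_le_pow_left₀ (Real.sqrt_nonneg _) (Nat.lt_floor_add_one _).le 4
    set a : ℝ := (j : ℝ) ^ 4 with ha
    set b' : ℝ := ((j : ℝ) + 1) ^ 4 with hb
    have ha1 : 1 < a := one_lt_pow₀ (by linarith) (by norm_num)
    have ha0 : 0 < a := by linarith
    have hb0 : 0 < b' := by linarith
    have hT0 : 0 < T := by linarith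
    have hla : 0 < Real.log a := Real.log_pos ha1
    have hlT : Real.log a ≤ Real.log T := Real.log_le_log ha0 haT
    have hlb : Real.log T ≤ Real.log b' := Real.log_le_log hT0 hTb
    have hlT0 : 0 < Real.log T := by linarith
    have hlb0 : 0 < Real.log b' := by linarith
    have hpa : 0 < Real.log a ^ K := pow_pos hla K
    have hpT : 0 < Real.log T ^ K := pow_pos hlT0 K
    have hpb : 0 < Real.log b' ^ K := pow_pos hlb0 K
    have hpaT : Real.log a ^ K ≤ Real.log T ^ K := pow_le_pow_left₀ hla.le hlT K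
    have hpTb : Real.log T ^ K ≤ Real.log b' ^ K := pow_le_pow_left₀ hlT0.le hlb K
    have hm1 := hmono a T ha0 haT
    have hm2 := hmono T b' hT0 hTb
    have hFa := hF0 a ha0
    have hFT := hF0 T hT0
    have hFb := hF0 b' hb0
  · have e1 : (b' / a)⁻¹ * ((Real.log b' / Real.log a) ^ K)⁻¹ * (F a / Real.log a ^ K) =
        (a * F a) / (b' * Real.log b' ^ K) := by
      rw [div_pow]
      field_simp
    rw [e1]
    rw [div_le_div_iff₀ (by positivity) hpT]
    calc a * F a * Real.log T ^ K ≤ (T * F T) * Real.log b' ^ K :=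
          mul_le_mul hm1 hpTb hpT.le (by positivity)
      _ ≤ (b' * F T) * Real.log b' ^ K :=
          mul_le_mul_of_nonneg_right (mul_le_mul_of_nonneg_right hTb hFT) hpb.le
      _ = F T * (b' * Real.log b' ^ K) := by ring
  · have e1 : (b' / a) * (Real.log b' / Real.log a) ^ K * (F b' / Real.log b' ^ K) =
        (b' * F b') / (a * Real.log a ^ K) := by
      rw [div_pow]
      field_simp
    rw [e1]
    rw [div_le_div_iff₀ hpT (by positivity)]
    calc F T * (a * Real.log a ^ K) = (a * F T) * Real.log a ^ K := by ring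
      _ ≤ (T * F T) * Real.log T ^ K :=
          mul_le_mul (mul_le_mul_of_nonneg_right haT hFT) hpaT hpa.le (by positivity)
      _ ≤ (b' * F b') * Real.log T ^ K := mul_le_mul_of_nonneg_right hm2 hpT.le

end FINR

open FINR in
/-- FINR -/
theorem pFINR (hYB : S_YB) (hAE : S_AE) (hMM : S_MM) (hAB : S_AB) : S_FINR := by
  unfold S_FINR
  rw [ae_all_iff]
  intro k
  by_cases hk : 1 ≤ k
  swap
  · exact Eventually.of_forall fun θ h => absurd h hk
  obtain ⟨C, hC, hCT⟩ := hYB k (1 / 4) hk (by norm_num)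
  obtain ⟨hM1, hM2⟩ := hMM k
  set c : ℝ := ((2 * k).choose k : ℝ) with hc
  have hT1 : ∀ j : ℕ, (1 : ℝ) ≤ ((j : ℝ) + 1) ^ 4 := fun j =>
    one_le_pow₀ (by have : (0 : ℝ) ≤ j := Nat.cast_nonneg _; linarith)
  have hT0 : ∀ j : ℕ, (0 : ℝ) < ((j : ℝ) + 1) ^ 4 := fun j => by positivity
  have hmeas : ∀ j : ℕ, Measurable (fun θ : ℕ → ℝ => M θ k (((j : ℝ) + 1) ^ 4) -
      c * Ab k (((j : ℝ) + 1) ^ 4)) := fun j => ((hM1 _ (hT0 j)).1).sub_const _
  have hae := hAE (ℕ → ℝ) P (fun j _ θ => M θ k (((j : ℝ) + 1) ^ 4) -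
      c * Ab k (((j : ℝ) + 1) ^ 4)) (fun j _ => C * (((j : ℝ) + 1) ^ 4) ^ ((1 / 4 : ℝ) - 1))
    (fun _ => {0}) (fun j _ => hmeas j)
    (fun j _ => by
      set B : ℝ := (2 * (((j : ℝ) + 1) ^ 4 + 1)) ^ (2 * k) + |c * Ab k (((j : ℝ) + 1) ^ 4)| with hB
      refine Integrable.of_bound ((hmeas j).pow_const 2).aestronglyMeasurable (B ^ 2)
        (Eventually.of_forall fun θ => ?_)
      rw [Real.norm_of_nonneg (sq_nonneg _)]
      obtain ⟨h1, h2⟩ := (hM1 _ (hT0 j)).2 θ
      rw [← sq_abs]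
      refine pow_le_pow_left₀ (abs_nonneg _) ?_ 2
      refine (abs_sub _ _).trans ?_
      rw [abs_of_nonneg h1]
      linarith)
    (fun j i _ => hCT _ (hT1 j))
    (by
      simp only [Finset.sum_singleton]
      apply Summable.mul_left
      have h1 : Summable (fun n : ℕ => ((n + 1 : ℕ) : ℝ) ^ (-3 : ℝ)) :=
        (summable_nat_add_iff 1).mpr (Real.summable_nat_rpow.mpr (by norm_num))
      refine h1.congr fun j => ?_
      have h2 : (0 : ℝ) ≤ (j : ℝ) + 1 := by positivity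
      push_cast
      rw [← Real.rpow_natCast ((j : ℝ) + 1) 4, ← Real.rpow_mul h2]
      norm_num)
  filter_upwards [hae] with θ hθ _
  have hg : Tendsto (fun j : ℕ => M θ k ((j : ℝ) ^ 4) / Real.log ((j : ℝ) ^ 4) ^ (k ^ 2)) atTop
      (𝓝 (c * (gam k / 2 ^ (k ^ 2)))) := by
    apply (tendsto_add_atTop_iff_nat 1).mp
    have hTj : Tendsto (fun j : ℕ => ((j : ℝ) + 1) ^ 4) atTop atTop :=
      (tendsto_pow_atTop (by norm_num)).comp
        (tendsto_atTop_add_const_right _ 1 tendsto_natCast_atTop_atTop)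
    have h1 : Tendsto (fun j : ℕ => Ab k (((j : ℝ) + 1) ^ 4) /
        Real.log (((j : ℝ) + 1) ^ 4) ^ (k ^ 2)) atTop (𝓝 (gam k / 2 ^ (k ^ 2))) :=
      (hAB k hk).comp hTj
    have h2 : Tendsto (fun j : ℕ => (M θ k (((j : ℝ) + 1) ^ 4) - c * Ab k (((j : ℝ) + 1) ^ 4)) /
        Real.log (((j : ℝ) + 1) ^ 4) ^ (k ^ 2)) atTop (𝓝 0) := by
      have h3 : Tendsto (fun j : ℕ => (M θ k (((j : ℝ) + 1) ^ 4) - c * Ab k (((j : ℝ) + 1) ^ 4)))
          atTop (𝓝 0) := by
        rw [Metric.tendsto_atTop]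
        intro ε hε
        obtain ⟨N, hN⟩ := eventually_atTop.mp (hθ (ε / 2) (half_pos hε))
        refine ⟨N, fun n hn => ?_⟩
        rw [Real.dist_eq, sub_zero]
        have := hN n hn 0 (Finset.mem_singleton_self 0)
        linarith
      have h4 : Tendsto (fun j : ℕ => Real.log (((j : ℝ) + 1) ^ 4) ^ (k ^ 2)) atTop atTop :=
        (tendsto_pow_atTop (by positivity)).comp (Real.tendsto_log_atTop.comp hTj)
      exact h3.div_atTop h4
    have h5 := h2.add (h1.const_mul c)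
    rw [zero_add] at h5
    refine h5.congr fun j => ?_
    push_cast
    ring
  exact grid (fun T => M θ k T) (k ^ 2) _ (fun T hT => ((hM1 T hT).2 θ).1) (hM2 θ) hg

end Pool.Agent.T2H98.RS
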