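import Pool.Agent.T2H98.RS.Stm

set_option autoImplicit false

open MeasureTheory Filter Topology Finset

namespace Pool.Agent.T2H98.RS

open Pool.Agent.T2H98.RT (P tw S A b gam QS S_MUL S_OR S_LIM S_AE S_QUAD S_RSB S_DIV)

namespace MM

lemma meas_fi : Measurable fi := by
  unfold fi
  fun_prop

lemma meas_Z (hSM : S_SM) : Measurable (fun q : (ℕ → ℝ) × ℝ => Z q.1 q.2) := by
  unfold Z
  have h1 := hSM.1
  have h2 : Measurable (fun q : (ℕ → ℝ) × ℝ => Complex.exp (fi q.2 * Complex.I)) := by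
    have := meas_fi
    fun_prop
  exact (Complex.measurable_re.comp (h2.mul h1)).const_mul 2

lemma meas_Zt (hSM : S_SM) (θ : ℕ → ℝ) : Measurable (fun t : ℝ => Z θ t) := by
  have h := meas_Z hSM
  exact Measurable.of_uncurry_left (f := Z) (x := θ) h

lemma Z_bd (hSM : S_SM) (θ : ℕ → ℝ) (t T : ℝ) (ht : 0 ≤ t) (hT : t ≤ T) :
    |Z θ t| ≤ 2 * (T + 1) := by
  unfold Z
  rw [abs_mul, abs_two]
  refine mul_le_mul_of_nonneg_left ?_ (by norm_num)
  refine (Complex.abs_re_le_norm _).trans ?_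
  rw [norm_mul, Complex.norm_exp_ofReal_mul_I, one_mul]
  refine (hSM.2.2.1 θ t).trans ?_
  refine (hSM.2.2.2.1 t ht).trans ?_
  linarith

lemma pw_bd (hSM : S_SM) (θ : ℕ → ℝ) (k : ℕ) (t T : ℝ) (ht : 0 ≤ t) (hT : t ≤ T) :
    ‖Z θ t ^ (2 * k)‖ ≤ (2 * (T + 1)) ^ (2 * k) := by
  rw [norm_pow, Real.norm_eq_abs]
  exact pow_le_pow_left₀ (abs_nonneg _) (Z_bd hSM θ t T ht hT) _

lemma pw_nn (θ : ℕ → ℝ) (k : ℕ) (t : ℝ) : 0 ≤ Z θ t ^ (2 * k) := by
  rw [pow_mul]
  positivity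

lemma intble (hSM : S_SM) (θ : ℕ → ℝ) (k : ℕ) (T : ℝ) (hT : 0 < T) :
    IntervalIntegrable (fun t : ℝ => Z θ t ^ (2 * k)) volume 0 T := by
  rw [intervalIntegrable_iff_integrableOn_Ioc_of_le hT.le]
  refine Measure.integrableOn_of_bounded (M := (2 * (T + 1)) ^ (2 * k)) ?_ ?_ ?_
  · simp
  · exact ((meas_Zt hSM θ).pow_const _).aestronglyMeasurable
  · refine (ae_restrict_iff' measurableSet_Ioc).2 (Eventually.of_forall fun t ht => ?_)
    exact pw_bd hSM θ k t T ht.1.le ht.2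

end MM

theorem pMM (hSM : S_SM) : S_MM := by
  intro k
  refine ⟨fun T hT => ⟨?_, fun θ => ⟨?_, ?_⟩⟩, ?_⟩
  · unfold M
    have e : (fun θ : ℕ → ℝ => ∫ t in (0:ℝ)..T, Z θ t ^ (2 * k)) =
        fun θ : ℕ → ℝ => ∫ t in Set.Ioc 0 T, Z (θ, t).1 (θ, t).2 ^ (2 * k) := by
      funext θ
      exact intervalIntegral.integral_of_le hT.le
    have h1 : StronglyMeasurable (fun q : (ℕ → ℝ) × ℝ => Z q.1 q.2 ^ (2 * k)) :=
      ((MM.meas_Z hSM).pow_const _).stronglyMeasurable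
    have h2 := (h1.integral_prod_right' (ν := volume.restrict (Set.Ioc 0 T))).measurable
    rw [← e] at h2
    exact h2.const_mul _
  · unfold M
    refine mul_nonneg (by positivity) ?_
    exact intervalIntegral.integral_nonneg hT.le fun t _ => MM.pw_nn θ k t
  · unfold M
    have h1 : ‖∫ t in (0:ℝ)..T, Z θ t ^ (2 * k)‖ ≤ (2 * (T + 1)) ^ (2 * k) * |T - 0| := by
      refine intervalIntegral.norm_integral_le_of_norm_le_const fun t ht => ?_
      rw [Set.uIoc_of_le hT.le] at ht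
      exact MM.pw_bd hSM θ k t T ht.1.le ht.2
    have h2 : (∫ t in (0:ℝ)..T, Z θ t ^ (2 * k)) ≤ (2 * (T + 1)) ^ (2 * k) * T := by
      refine (le_abs_self _).trans ?_
      rw [sub_zero, abs_of_pos hT] at h1
      exact h1
    rw [div_mul_eq_mul_div, one_mul, div_le_iff₀ hT]
    exact h2
  · intro θ s T hs hsT
    have hT : 0 < T := hs.trans_le hsT
    unfold M
    have e1 : s * (1 / s * ∫ t in (0:ℝ)..s, Z θ t ^ (2 * k)) = ∫ t in (0:ℝ)..s, Z θ t ^ (2 * k) := by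
      field_simp
    have e2 : T * (1 / T * ∫ t in (0:ℝ)..T, Z θ t ^ (2 * k)) = ∫ t in (0:ℝ)..T, Z θ t ^ (2 * k) := by
      field_simp
    rw [e1, e2]
    refine intervalIntegral.integral_mono_interval le_rfl hs.le hsT ?_ (MM.intble hSM θ k T hT)
    exact Eventually.of_forall fun t => MM.pw_nn θ k t

end Pool.Agent.T2H98.RS
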