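import Pool.Agent.T2H98.RS.Stm

/-!
# RS, package QD: grouping the tuples by their products
-/

set_option autoImplicit false

open MeasureTheory Filter Topology Finset

namespace Pool.Agent.T2H98.RS

open Pool.Agent.T2H98.RT (P tw S A b gam QS S_MUL S_OR S_LIM S_AE S_QUAD S_RSB S_DIV)

namespace QD

theorem pd_mem {k N : ℕ} {v : Fin k → ℕ} (hv : v ∈ tp k N) : pd v ∈ Icc 1 (N ^ k) := by
  unfold tp at hv
  rw [Fintype.mem_piFinset] at hv
  rw [mem_Icc]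
  constructor
  · exact Nat.one_le_iff_ne_zero.2 (prod_ne_zero_iff.2 fun i _ => by
      have := (mem_Icc.1 (hv i)).1
      omega)
  · calc pd v ≤ ∏ _i : Fin k, N := prod_le_prod' fun i _ => (mem_Icc.1 (hv i)).2
      _ = N ^ k := by rw [prod_const, card_univ, Fintype.card_fin]

theorem fib (k N : ℕ) (g : ℕ → ℝ) :
    ∑ v ∈ tp k N, g (pd v) = ∑ m ∈ Icc 1 (N ^ k), (b k N m : ℝ) * g m := by
  have hmap : ∀ v ∈ tp k N, pd v ∈ Icc 1 (N ^ k) := fun v hv => pd_mem hv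
  rw [← sum_fiberwise_of_maps_to hmap]
  refine sum_congr rfl fun m _ => ?_
  rw [sum_congr rfl (g := fun _ => g m) (fun v hv => by rw [(mem_filter.1 hv).2]), sum_const,
    nsmul_eq_mul]
  rfl

theorem fib2 (k N : ℕ) (g : ℕ → ℕ → ℝ) :
    ∑ q ∈ tp k N ×ˢ tp k N, g (pd q.1) (pd q.2) =
      ∑ q ∈ Icc 1 (N ^ k) ×ˢ Icc 1 (N ^ k), ((b k N q.1 : ℝ) * b k N q.2) * g q.1 q.2 := by
  rw [sum_product, sum_product]
  simp only
  rw [fib k N (fun m => ∑ w ∈ tp k N, g m (pd w))]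
  refine sum_congr rfl fun m _ => ?_
  rw [fib k N (fun n => g m n), mul_sum]
  refine sum_congr rfl fun n _ => ?_
  ring

theorem fib4 (k N : ℕ) (G : ℕ → ℕ → ℕ → ℕ → ℝ) :
    ∑ q ∈ tp k N ×ˢ tp k N, ∑ r ∈ tp k N ×ˢ tp k N, G (pd q.1) (pd q.2) (pd r.1) (pd r.2) =
      ∑ q ∈ Icc 1 (N ^ k) ×ˢ Icc 1 (N ^ k), ∑ r ∈ Icc 1 (N ^ k) ×ˢ Icc 1 (N ^ k),
        ((b k N q.1 : ℝ) * b k N q.2 * ((b k N r.1 : ℝ) * b k N r.2)) * G q.1 q.2 r.1 r.2 := by
  rw [fib2 k N (fun m n => ∑ r ∈ tp k N ×ˢ tp k N, G m n (pd r.1) (pd r.2))]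
  refine sum_congr rfl fun q _ => ?_
  rw [fib2 k N (fun m' n' => G q.1 q.2 m' n'), mul_sum]
  refine sum_congr rfl fun r _ => ?_
  ring

end QD

open QD in
theorem pQD : S_QD := by
  intro k N
  apply le_of_eq
  rw [fib4 k N (fun m n m' n' => if m * n' = m' * n ∧ m ≠ n then
      1 / Real.sqrt ((m : ℝ) * n) * (1 / Real.sqrt ((m' : ℝ) * n')) /
        |Real.log m - Real.log n| else 0)]
  unfold QS Pool.Agent.T2H98.RT.quads
  conv_rhs => rw [sum_filter, sum_product]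
  refine sum_congr rfl fun q _ => sum_congr rfl fun r _ => ?_
  simp only
  split_ifs with h
  · rw [Real.sqrt_mul (Nat.cast_nonneg _), Real.sqrt_mul (Nat.cast_nonneg _)]
    simp only [div_eq_mul_inv, mul_inv]
    ring
  · rw [mul_zero]

end Pool.Agent.T2H98.RS
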