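import Pool.Agent.T2H98.RS.Stm
import Pool.Agent.T2H98.RT.VAR

/-! package QSB -/

set_option autoImplicit false

open MeasureTheory Filter Topology Finset

namespace Pool.Agent.T2H98.RS

open Pool.Agent.T2H98.RT (P tw S A b gam QS S_MUL S_OR S_LIM S_AE S_QUAD S_RSB S_DIV)

open Pool.Agent.T2H98.RT.VAR in
theorem pQSB (hQUAD : S_QUAD) (hRSB : S_RSB) (hDIV : S_DIV) : S_QSB := by
  intro k ε hk hε
  have hk0 : (0 : ℝ) < k := by exact_mod_cast hk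
  set e1 : ℝ := ε / (8 * k) with he1
  have he1p : 0 < e1 := by positivity
  obtain ⟨C1, hC1, hC1b, _⟩ := hDIV k e1 he1p
  obtain ⟨C2, hC2, hC2b⟩ := log_small k (ε / 8) (by positivity)
  refine ⟨2 * C1 ^ 4 * C2 ^ 4, by positivity, ?_⟩
  intro N hN
  have hN1 : (1 : ℝ) ≤ N := by exact_mod_cast hN
  have hN0 : (0 : ℝ) < N := by linarith
  set c : ℕ → ℝ := fun m => (b k N m : ℝ) / Real.sqrt m with hc
  have hcnn : ∀ m, 0 ≤ c m := fun m => by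
    simp only [hc]
    positivity
  have hM1 : 1 ≤ N ^ k := Nat.one_le_pow _ _ hN
  set B : ℝ := C1 * ((N : ℝ) ^ k) ^ e1 with hB
  have hBnn : 0 ≤ B := by positivity
  have hcB : ∀ m ∈ Icc 1 (N ^ k), c m ≤ B * (1 / Real.sqrt m) := by
    intro m hm
    rw [Finset.mem_Icc] at hm
    simp only [hc]
    rw [div_eq_mul_one_div]
    refine mul_le_mul_of_nonneg_right ?_ (by positivity)
    refine (hC1b N m hm.1).trans ?_
    refine mul_le_mul_of_nonneg_left ?_ hC1.le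
    refine Real.rpow_le_rpow (Nat.cast_nonneg _) ?_ he1p.le
    exact_mod_cast hm.2
  have h2 := QS_le c B (N ^ k) hcnn hBnn hcB
  obtain ⟨hH0, hH1⟩ := harm (N ^ k) hM1
  set H : ℝ := ∑ g ∈ Icc 1 (N ^ k), 1 / (g : ℝ) with hH
  have h3 : QS (fun m => 1 / Real.sqrt m) (N ^ k) ≤ 2 * H ^ 4 := by
    have e2 := hQUAD (N ^ k)
    have e3 := hRSB (N ^ k)
    calc QS (fun m => 1 / Real.sqrt m) (N ^ k) ≤ H ^ 2 * Pool.Agent.T2H98.RT.RS (N ^ k) := e2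
      _ ≤ H ^ 2 * (2 * H ^ 2) := mul_le_mul_of_nonneg_left e3 (by positivity)
      _ = 2 * H ^ 4 := by ring
  have h4 : H ≤ C2 * (N : ℝ) ^ (ε / 8) := by
    refine hH1.trans ?_
    rw [Nat.cast_pow, Real.log_pow]
    exact hC2b N hN
  have h5 : H ^ 4 ≤ C2 ^ 4 * (N : ℝ) ^ (ε / 2) := by
    calc H ^ 4 ≤ (C2 * (N : ℝ) ^ (ε / 8)) ^ 4 := pow_le_pow_left₀ hH0 h4 4
      _ = C2 ^ 4 * ((N : ℝ) ^ (ε / 8)) ^ 4 := by ring
      _ = C2 ^ 4 * (N : ℝ) ^ (ε / 2) := by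
          rw [← Real.rpow_natCast ((N : ℝ) ^ (ε / 8)) 4, ← Real.rpow_mul hN0.le]
          congr 2
          push_cast
          ring
  have h6 : B ^ 4 = C1 ^ 4 * (N : ℝ) ^ (ε / 2) := by
    rw [hB, mul_pow]
    congr 1
    rw [← Real.rpow_natCast (N : ℝ) k, ← Real.rpow_mul hN0.le, ← Real.rpow_natCast _ 4, ← Real.rpow_mul hN0.le]
    congr 1
    rw [he1]
    push_cast
    field_simp
    ring
  have h7 : (N : ℝ) ^ (ε / 2) * (N : ℝ) ^ (ε / 2) = (N : ℝ) ^ ε := by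
    rw [← Real.rpow_add hN0]
    congr 1
    ring
  show QS c (N ^ k) ≤ 2 * C1 ^ 4 * C2 ^ 4 * (N : ℝ) ^ ε
  calc QS c (N ^ k) ≤ B ^ 4 * (2 * H ^ 4) :=
        h2.trans (mul_le_mul_of_nonneg_left h3 (by positivity))
    _ ≤ (C1 ^ 4 * (N : ℝ) ^ (ε / 2)) * (2 * (C2 ^ 4 * (N : ℝ) ^ (ε / 2))) := by
        rw [h6]
        refine mul_le_mul_of_nonneg_left ?_ (by positivity)
        linarith
    _ = 2 * C1 ^ 4 * C2 ^ 4 * ((N : ℝ) ^ (ε / 2) * (N : ℝ) ^ (ε / 2)) := by ring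
    _ = 2 * C1 ^ 4 * C2 ^ 4 * (N : ℝ) ^ ε := by rw [h7]

end Pool.Agent.T2H98.RS
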