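import Pool.Agent.T2H98.RS.Stm

set_option autoImplicit false

open MeasureTheory Filter Topology Finset

namespace Pool.Agent.T2H98.RS

open Pool.Agent.T2H98.RT (P tw S A b gam QS S_MUL S_OR S_LIM S_AE S_QUAD S_RSB S_DIV)

namespace QT

lemma pd_mem {K N : ℕ} {V : Fin K → ℕ} (hV : V ∈ tp K N) : pd V ∈ Icc 1 (N ^ K) := by
  unfold tp at hV
  rw [Fintype.mem_piFinset] at hV
  unfold pd
  rw [Finset.mem_Icc]
  constructor
  · exact Nat.one_le_iff_ne_zero.2 (Finset.prod_ne_zero_iff.2 fun i _ =>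
      Nat.one_le_iff_ne_zero.1 (Finset.mem_Icc.1 (hV i)).1)
  · have h := Finset.prod_le_pow_card (univ : Finset (Fin K)) V N
      (fun i _ => (Finset.mem_Icc.1 (hV i)).2)
    simpa using h

lemma A_eq (K N : ℕ) : A K N = ∑ V ∈ tp K N, ∑ W ∈ tp K N,
    if pd V = pd W then 1 / (pd V : ℝ) else 0 := by
  have hb : ∀ m : ℕ, (b K N m : ℝ) = ∑ V ∈ tp K N, if pd V = m then (1 : ℝ) else 0 := by
    intro m
    unfold b
    rw [Finset.card_filter]
    push_cast
    rfl
  unfold A
  have h1 : ∀ m ∈ Icc 1 (N ^ K), (b K N m : ℝ) ^ 2 / m = ∑ V ∈ tp K N, ∑ W ∈ tp K N,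
      (if pd V = m then (1 : ℝ) else 0) * (if pd W = m then (1 : ℝ) else 0) / m := by
    intro m _
    rw [hb m, sq, Finset.sum_mul_sum, Finset.sum_div]
    refine Finset.sum_congr rfl fun V _ => ?_
    rw [Finset.sum_div]
  rw [Finset.sum_congr rfl h1, Finset.sum_comm]
  refine Finset.sum_congr rfl fun V hV => ?_
  rw [Finset.sum_comm]
  refine Finset.sum_congr rfl fun W _ => ?_
  rw [Finset.sum_eq_single_of_mem (pd V) (pd_mem hV)]
  · by_cases h : pd V = pd W
    · simp [h]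
    · rw [if_pos rfl, if_neg h, if_neg (fun h' => h h'.symm)]
      simp
  · intro m _ hm
    rw [if_neg (fun h => hm h.symm)]
    simp

lemma pd_append {j l : ℕ} (v : Fin j → ℕ) (w : Fin l → ℕ) :
    pd (Fin.append v w) = pd v * pd w := by
  unfold pd
  rw [Fin.prod_univ_add]
  simp

lemma append_mem {j l N : ℕ} {v : Fin j → ℕ} {w : Fin l → ℕ} (hv : v ∈ tp j N) (hw : w ∈ tp l N) :
    Fin.append v w ∈ tp (j + l) N := by
  unfold tp at *
  rw [Fintype.mem_piFinset] at *
  intro i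
  refine Fin.addCases (fun a => ?_) (fun a => ?_) i
  · rw [Fin.append_left]
    exact hv a
  · rw [Fin.append_right]
    exact hw a

lemma append_inj {j l : ℕ} {v v' : Fin j → ℕ} {w w' : Fin l → ℕ}
    (h : Fin.append v w = Fin.append v' w') : v = v' ∧ w = w' := by
  constructor
  · funext a
    have := congrFun h (Fin.castAdd l a)
    simpa using this
  · funext a
    have := congrFun h (Fin.natAdd j a)
    simpa using this

end QT

theorem pQT : S_QT := by
  intro j l N
  rw [QT.A_eq (j + l) N]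
  rw [← Finset.sum_product', ← Finset.sum_product']
  let e : ((Fin j → ℕ) × (Fin l → ℕ)) × ((Fin j → ℕ) × (Fin l → ℕ)) →
      (Fin (j + l) → ℕ) × (Fin (j + l) → ℕ) :=
    fun x => (Fin.append x.1.1 x.2.2, Fin.append x.2.1 x.1.2)
  have he : Function.Injective e := by
    intro x y hxy
    have h1 := QT.append_inj (Prod.ext_iff.1 hxy).1
    have h2 := QT.append_inj (Prod.ext_iff.1 hxy).2
    exact Prod.ext (Prod.ext h1.1 h2.2) (Prod.ext h2.1 h1.2)
  have hsub : ((tp j N ×ˢ tp l N) ×ˢ (tp j N ×ˢ tp l N)).image e ⊆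
      tp (j + l) N ×ˢ tp (j + l) N := by
    intro y hy
    rw [Finset.mem_image] at hy
    obtain ⟨x, hx, rfl⟩ := hy
    rw [Finset.mem_product, Finset.mem_product, Finset.mem_product] at hx
    rw [Finset.mem_product]
    exact ⟨QT.append_mem hx.1.1 hx.2.2, QT.append_mem hx.2.1 hx.1.2⟩
  refine le_trans (le_of_eq ?_) (Finset.sum_le_sum_of_subset_of_nonneg hsub ?_)
  · rw [Finset.sum_image (fun x _ y _ h => he h)]
    refine Finset.sum_congr rfl fun x hx => ?_
    rw [Finset.mem_product, Finset.mem_product, Finset.mem_product] at hx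
    have p1 : (0 : ℝ) < pd x.1.1 := by exact_mod_cast (Finset.mem_Icc.1 (QT.pd_mem hx.1.1)).1
    have p2 : (0 : ℝ) < pd x.1.2 := by exact_mod_cast (Finset.mem_Icc.1 (QT.pd_mem hx.1.2)).1
    have p3 : (0 : ℝ) < pd x.2.1 := by exact_mod_cast (Finset.mem_Icc.1 (QT.pd_mem hx.2.1)).1
    have p4 : (0 : ℝ) < pd x.2.2 := by exact_mod_cast (Finset.mem_Icc.1 (QT.pd_mem hx.2.2)).1
    simp only [e, QT.pd_append]
    split_ifs with h
    · have h' : (pd x.1.1 : ℝ) * pd x.2.2 = pd x.2.1 * pd x.1.2 := by exact_mod_cast h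
      rw [div_mul_div_comm, one_mul, ← Real.sqrt_mul (by positivity)]
      congr 1
      rw [Nat.cast_mul]
      have h5 : (pd x.1.1 : ℝ) * pd x.1.2 * (pd x.2.1 * pd x.2.2) =
          ((pd x.1.1 : ℝ) * pd x.2.2) ^ 2 := by
        calc (pd x.1.1 : ℝ) * pd x.1.2 * (pd x.2.1 * pd x.2.2)
            = ((pd x.1.1 : ℝ) * pd x.2.2) * (pd x.2.1 * pd x.1.2) := by ring
          _ = _ := by rw [← h']; ring
      rw [h5, Real.sqrt_sq (by positivity)]
    · rfl
  · intro y _ _
    split_ifs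
    · positivity
    · exact le_rfl

end Pool.Agent.T2H98.RS
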