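import Pool.Agent.T2H98.RS.Stm

set_option autoImplicit false

open MeasureTheory Filter Topology Finset

namespace Pool.Agent.T2H98.RS

open Pool.Agent.T2H98.RT (P tw S A b gam QS S_MUL S_OR S_LIM S_AE S_QUAD S_RSB S_DIV)

namespace SM

lemma Nf_meas : Measurable Nf := by
  unfold Nf
  exact Nat.measurable_floor.comp (Real.continuous_sqrt.comp (continuous_id.div_const _)).measurable

lemma S_cont (hM : S_MUL) (N : ℕ) : Continuous (fun q : (ℕ → ℝ) × ℝ => S q.1 N q.2) := by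
  unfold Pool.Agent.T2H98.RT.S
  refine continuous_finsetSum _ fun n hn => ?_
  have hn0 : (n : ℂ) ≠ 0 := by
    have := (mem_Icc.1 hn).1
    exact_mod_cast (by omega : n ≠ 0)
  refine ((hM.2.2.2 n).comp continuous_fst).mul ?_
  refine Continuous.const_cpow ?_ (Or.inl hn0)
  have : Continuous (fun q : (ℕ → ℝ) × ℝ => (q.2 : ℂ)) := Complex.continuous_ofReal.comp continuous_snd
  exact continuous_const.sub (this.mul continuous_const)

lemma S_cont_t (hM : S_MUL) (θ : ℕ → ℝ) (N : ℕ) : Continuous (fun t : ℝ => S θ N t) := by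
  unfold Pool.Agent.T2H98.RT.S
  refine continuous_finsetSum _ fun n hn => ?_
  have hn0 : (n : ℂ) ≠ 0 := by
    have := (mem_Icc.1 hn).1
    exact_mod_cast (by omega : n ≠ 0)
  refine continuous_const.mul ?_
  refine Continuous.const_cpow ?_ (Or.inl hn0)
  exact continuous_const.sub (Complex.continuous_ofReal.mul continuous_const)

lemma gen {α : Type*} [MeasurableSpace α] (F : ℕ → α → ℂ) (hF : ∀ N, Measurable (F N)) (g : α → ℕ)
    (hg : Measurable g) : Measurable (fun a => F (g a) a) := by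
  have h1 : Measurable (fun r : ℕ × α => F r.1 r.2) := measurable_from_prod_countable_right hF
  exact h1.comp (hg.prodMk measurable_id)

lemma norm_le (hM : S_MUL) (θ : ℕ → ℝ) (N : ℕ) (t : ℝ) : ‖S θ N t‖ ≤ N := by
  unfold Pool.Agent.T2H98.RT.S
  calc ‖∑ n ∈ Icc 1 N, tw θ n * (n : ℂ) ^ (-(1 / 2 : ℂ) - t * Complex.I)‖
      ≤ ∑ n ∈ Icc 1 N, ‖tw θ n * (n : ℂ) ^ (-(1 / 2 : ℂ) - t * Complex.I)‖ := norm_sum_le _ _
    _ ≤ ∑ n ∈ Icc 1 N, (1 : ℝ) := by
        refine sum_le_sum fun n hn => ?_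
        have h1 := (mem_Icc.1 hn).1
        rw [norm_mul, hM.2.1, one_mul, Complex.norm_natCast_cpow_of_pos (by omega)]
        have h2 : (-(1 / 2 : ℂ) - t * Complex.I).re = -(1 / 2) := by simp
        rw [h2]
        exact Real.rpow_le_one_of_one_le_of_nonpos (by exact_mod_cast h1) (by norm_num)
    _ = N := by simp

lemma Nf_le (t : ℝ) (ht : 0 ≤ t) : (Nf t : ℝ) ≤ t + 1 := by
  unfold Nf
  refine (Nat.floor_le (Real.sqrt_nonneg _)).trans ?_
  rw [Real.sqrt_le_left (by linarith)]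
  have h1 : t / (2 * Real.pi) ≤ t := by
    apply div_le_self ht
    linarith [Real.pi_gt_three]
  nlinarith

lemma Nf_mono (s t : ℝ) (h : s ≤ t) : Nf s ≤ Nf t := by
  unfold Nf
  apply Nat.floor_le_floor
  apply Real.sqrt_le_sqrt
  have := Real.pi_pos
  gcongr

end SM

set_option maxHeartbeats 400000 in
theorem pSM (hMUL : S_MUL) : S_SM := by
  have h0 : ∀ N : ℕ, Measurable (fun q : (ℕ → ℝ) × ℝ => S q.1 N q.2) := fun N => (SM.S_cont hMUL N).measurable
  have h1 : Measurable (fun q : (ℕ → ℝ) × ℝ => S q.1 (Nf q.2) q.2) :=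
    SM.gen (fun N (q : (ℕ → ℝ) × ℝ) => S q.1 N q.2) h0 (fun q => Nf q.2) (SM.Nf_meas.comp measurable_snd)
  have h2 : ∀ θ : ℕ → ℝ, Measurable (fun t : ℝ => S θ (Nf t) t) := by
    intro θ
    have h3 : ∀ N : ℕ, Measurable (fun t : ℝ => S θ N t) := fun N => (SM.S_cont_t hMUL θ N).measurable
    exact SM.gen (fun N (t : ℝ) => S θ N t) h3 Nf SM.Nf_meas
  exact ⟨h1, h2, fun θ t => SM.norm_le hMUL θ _ t, SM.Nf_le, SM.Nf_mono⟩

end Pool.Agent.T2H98.RS
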