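import Pool.Agent.T2H98.RS.Stm

/-! package VJ1 -/

set_option autoImplicit false

open MeasureTheory Filter Topology Finset

namespace Pool.Agent.T2H98.RS

open Pool.Agent.T2H98.RT (P tw S A b gam QS S_MUL S_OR S_LIM S_AE S_QUAD S_RSB S_DIV)

namespace VJ1

theorem Nf_sq (T : ℝ) (hT : 0 ≤ T) : 2 * Real.pi * ((Nf T : ℕ) : ℝ) ^ 2 ≤ T := by
  have hpi := Real.pi_pos
  have h1 : ((Nf T : ℕ) : ℝ) ≤ Real.sqrt (T / (2 * Real.pi)) := Nat.floor_le (Real.sqrt_nonneg _)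
  have h2 : ((Nf T : ℕ) : ℝ) ^ 2 ≤ T / (2 * Real.pi) := by
    calc ((Nf T : ℕ) : ℝ) ^ 2 ≤ Real.sqrt (T / (2 * Real.pi)) ^ 2 :=
          pow_le_pow_left₀ (Nat.cast_nonneg _) h1 2
      _ = T / (2 * Real.pi) := Real.sq_sqrt (by positivity)
  rw [le_div_iff₀ (by positivity)] at h2
  linarith

theorem Nf_le (T : ℝ) (hT : 0 ≤ T) : ((Nf T : ℕ) : ℝ) ≤ T := by
  have h := Nf_sq T hT
  have hpi := Real.pi_gt_three
  rcases Nat.eq_zero_or_pos (Nf T) with h0 | h0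
  · rw [h0]; simpa using hT
  · have h1 : (1 : ℝ) ≤ ((Nf T : ℕ) : ℝ) := by exact_mod_cast h0
    have h2 : ((Nf T : ℕ) : ℝ) ≤ ((Nf T : ℕ) : ℝ) ^ 2 := by nlinarith
    nlinarith

theorem pd_ne {j N : ℕ} {v : Fin j → ℕ} (hv : v ∈ tp j N) : pd v ≠ 0 := by
  unfold pd
  rw [Finset.prod_ne_zero_iff]
  intro i _
  have := Finset.mem_Icc.1 (Fintype.mem_piFinset.1 hv i)
  omega

theorem sup_le' {j N : ℕ} {v : Fin j → ℕ} (hv : v ∈ tp j N) : univ.sup v ≤ N := by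
  apply Finset.sup_le
  intro i _
  exact (Finset.mem_Icc.1 (Fintype.mem_piFinset.1 hv i)).2

theorem sup_pos {j N : ℕ} {v : Fin j → ℕ} (hv : v ∈ tp j N) (hj : 1 ≤ j) : 1 ≤ univ.sup v := by
  have h1 := (Finset.mem_Icc.1 (Fintype.mem_piFinset.1 hv ⟨0, by omega⟩)).1
  exact h1.trans (Finset.le_sup (f := v) (Finset.mem_univ _))

theorem tq_bd {j l : ℕ} {T : ℝ} (hT : 0 ≤ T) (hjl : 1 ≤ j + l) {v : Fin j → ℕ} {w : Fin l → ℕ}
    (hv : v ∈ tp j (Nf T)) (hw : w ∈ tp l (Nf T)) : 0 < tq v w ∧ tq v w ≤ T := by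
  have hpi := Real.pi_pos
  unfold tq
  have h1 : 1 ≤ max (univ.sup v) (univ.sup w) := by
    rcases Nat.eq_zero_or_pos j with h0 | h0
    · exact (sup_pos hw (by omega)).trans (le_max_right _ _)
    · exact (sup_pos hv h0).trans (le_max_left _ _)
  have h2 : max (univ.sup v) (univ.sup w) ≤ Nf T := max_le (sup_le' hv) (sup_le' hw)
  have h1' : (1 : ℝ) ≤ ((max (univ.sup v) (univ.sup w) : ℕ) : ℝ) := by exact_mod_cast h1
  have h2' : ((max (univ.sup v) (univ.sup w) : ℕ) : ℝ) ≤ ((Nf T : ℕ) : ℝ) := by exact_mod_cast h2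
  refine ⟨by positivity, ?_⟩
  refine le_trans ?_ (Nf_sq T hT)
  refine mul_le_mul_of_nonneg_left ?_ (by positivity)
  exact pow_le_pow_left₀ (by positivity) h2' 2

end VJ1

open VJ1 in
theorem pVJ1 (hXTUP : S_XTUP) (hVG : S_VG) (hVDC : S_VDC) (hQT : S_QT) (hAUP : S_AUP) : S_VJ1 := by
  intro k j ε hk hj hjk hε
  obtain ⟨C, hC, hCb⟩ := hVDC
  obtain ⟨C', hC', hCb'⟩ := hAUP (j + (2 * k - j)) ε (by omega) hε
  refine ⟨C ^ 2 * C', by positivity, ?_⟩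
  intro T hT
  have hT0 : 0 < T := by linarith
  generalize hl : 2 * k - j = l at hCb' ⊢
  have hjl : 1 ≤ j + l := by omega
  generalize hh : (j : ℤ) - k = h
  have hh0 : h ≠ 0 := by omega
  have hK : ∀ q ∈ tp j (Nf T) ×ˢ tp l (Nf T), ‖Kk h T q.1 q.2‖ ≤ C / Real.sqrt T := by
    intro q hq
    rw [Finset.mem_product] at hq
    obtain ⟨h1, h2⟩ := tq_bd hT0.le hjl hq.1 hq.2
    have h3 := hCb h (Real.log (pd q.1) - Real.log (pd q.2)) (tq q.1 q.2) T T hh0 h1 h2 le_rfl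
    unfold Kk
    rw [norm_mul, norm_div, norm_one, Complex.norm_real, Real.norm_of_nonneg hT0.le]
    calc 1 / T * _ ≤ 1 / T * (C * Real.sqrt T) := mul_le_mul_of_nonneg_left h3 (by positivity)
      _ = C / Real.sqrt T := by
          have h4 : Real.sqrt T * Real.sqrt T = T := Real.mul_self_sqrt hT0.le
          have h5 : Real.sqrt T ≠ 0 := (Real.sqrt_pos.2 hT0).ne'
          field_simp
          rw [sq, h4]
  have hrw : ∫ θ, ‖X θ j l h T‖ ^ 2 ∂P = ∫ θ, ‖∑ q ∈ tp j (Nf T) ×ˢ tp l (Nf T),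
      ((1 / Real.sqrt ((pd q.1 : ℝ) * pd q.2) : ℝ) : ℂ) * Kk h T q.1 q.2 * tw θ (pd q.1) *
        (starRingEnd ℂ) (tw θ (pd q.2))‖ ^ 2 ∂P := by
    congr 1
    funext θ
    rw [hXTUP θ j l h T hT0 hjl]
  rw [hrw]
  refine (hVG ((Fin j → ℕ) × (Fin l → ℕ)) (tp j (Nf T) ×ˢ tp l (Nf T)) (fun q => pd q.1)
    (fun q => pd q.2) (fun q => 1 / Real.sqrt ((pd q.1 : ℝ) * pd q.2)) (fun q => Kk h T q.1 q.2) ?_).trans ?_
  · intro q hq
    rw [Finset.mem_product] at hq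
    exact ⟨pd_ne hq.1, pd_ne hq.2, by positivity⟩
  · have hA : A (j + l) (Nf T) ≤ C' * T ^ ε := by
      rcases Nat.eq_zero_or_pos (Nf T) with h0 | h0
      · rw [h0]
        have : A (j + l) 0 = 0 := by
          unfold A
          rw [zero_pow (by omega)]
          simp
        rw [this]
        positivity
      · refine (hCb' (Nf T) h0).trans ?_
        refine mul_le_mul_of_nonneg_left ?_ hC'.le
        exact Real.rpow_le_rpow (Nat.cast_nonneg _) (Nf_le T hT0.le) hε.le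
    have hstep : ∑ q ∈ tp j (Nf T) ×ˢ tp l (Nf T), ∑ r ∈ tp j (Nf T) ×ˢ tp l (Nf T),
        (if pd q.1 * pd r.2 = pd r.1 * pd q.2 then
          1 / Real.sqrt ((pd q.1 : ℝ) * pd q.2) * (1 / Real.sqrt ((pd r.1 : ℝ) * pd r.2)) *
            (‖Kk h T q.1 q.2‖ * ‖Kk h T r.1 r.2‖) else 0) ≤
        C ^ 2 / T * ∑ q ∈ tp j (Nf T) ×ˢ tp l (Nf T), ∑ r ∈ tp j (Nf T) ×ˢ tp l (Nf T),
        (if pd q.1 * pd r.2 = pd r.1 * pd q.2 then
          1 / Real.sqrt ((pd q.1 : ℝ) * pd q.2) * (1 / Real.sqrt ((pd r.1 : ℝ) * pd r.2)) else 0) := by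
      rw [Finset.mul_sum]
      refine Finset.sum_le_sum fun q hq => ?_
      rw [Finset.mul_sum]
      refine Finset.sum_le_sum fun r hr => ?_
      split_ifs with hif
      · have e1 : ‖Kk h T q.1 q.2‖ * ‖Kk h T r.1 r.2‖ ≤ C ^ 2 / T := by
          calc ‖Kk h T q.1 q.2‖ * ‖Kk h T r.1 r.2‖ ≤ C / Real.sqrt T * (C / Real.sqrt T) :=
                mul_le_mul (hK q hq) (hK r hr) (norm_nonneg _) (by positivity)
            _ = C ^ 2 / T := by
                rw [div_mul_div_comm, Real.mul_self_sqrt hT0.le, sq]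
        calc 1 / Real.sqrt ((pd q.1 : ℝ) * pd q.2) * (1 / Real.sqrt ((pd r.1 : ℝ) * pd r.2)) *
            (‖Kk h T q.1 q.2‖ * ‖Kk h T r.1 r.2‖) ≤
            1 / Real.sqrt ((pd q.1 : ℝ) * pd q.2) * (1 / Real.sqrt ((pd r.1 : ℝ) * pd r.2)) *
            (C ^ 2 / T) := mul_le_mul_of_nonneg_left e1 (by positivity)
          _ = _ := by ring
      · simp
    refine hstep.trans ?_
    calc C ^ 2 / T * _ ≤ C ^ 2 / T * A (j + l) (Nf T) :=
          mul_le_mul_of_nonneg_left (hQT j l (Nf T)) (by positivity)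
      _ ≤ C ^ 2 / T * (C' * T ^ ε) := mul_le_mul_of_nonneg_left hA (by positivity)
      _ = C ^ 2 * C' * T ^ (ε - 1) := by
          rw [Real.rpow_sub_one hT0.ne']
          ring

end Pool.Agent.T2H98.RS
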