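import Pool.Agent.T2H98.RS.Stm

/-! Project RS, package VJ2. -/

set_option autoImplicit false

open MeasureTheory Filter Topology Finset

namespace Pool.Agent.T2H98.RS

open Pool.Agent.T2H98.RT (P tw S A b gam QS S_MUL S_OR S_LIM S_AE S_QUAD S_RSB S_DIV)

namespace VJ2

theorem mem_tp {j N : ℕ} {v : Fin j → ℕ} : v ∈ tp j N ↔ ∀ i, 1 ≤ v i ∧ v i ≤ N := by
  unfold tp
  rw [Fintype.mem_piFinset]
  simp only [Finset.mem_Icc]

theorem pd_pos {j N : ℕ} {v : Fin j → ℕ} (hv : v ∈ tp j N) : 0 < pd v :=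
  Finset.prod_pos fun i _ => (mem_tp.mp hv i).1

theorem pd_le {j N : ℕ} {v : Fin j → ℕ} (hv : v ∈ tp j N) : pd v ≤ N ^ j := by
  have h := Finset.prod_le_pow_card (univ : Finset (Fin j)) v N (fun i _ => (mem_tp.mp hv i).2)
  rw [Finset.card_univ, Fintype.card_fin] at h
  exact h

theorem tw_norm (θ : ℕ → ℝ) (n : ℕ) : ‖tw θ n‖ = 1 := by
  unfold tw
  have : (2 * (Real.pi : ℂ) * (Pool.Agent.T2H98.RT.ph θ n : ℂ)) = ((2 * Real.pi * Pool.Agent.T2H98.RT.ph θ n : ℝ) : ℂ) := by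
    push_cast
    ring
  rw [this, Complex.norm_exp_ofReal_mul_I]

theorem tw_conj (θ : ℕ → ℝ) (n : ℕ) : tw θ n * (starRingEnd ℂ) (tw θ n) = 1 := by
  rw [Complex.mul_conj, Complex.normSq_eq_norm_sq, tw_norm]
  norm_num

theorem le_Nf {n : ℕ} {t : ℝ} (ht : 0 ≤ t) : n ≤ Nf t ↔ 2 * Real.pi * (n : ℝ) ^ 2 ≤ t := by
  have hpi := Real.pi_pos
  unfold Nf
  have h0 : 0 ≤ t / (2 * Real.pi) := by positivity
  rw [Nat.le_floor_iff (Real.sqrt_nonneg _)]
  constructor
  · intro h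
    have h1 := pow_le_pow_left₀ (Nat.cast_nonneg n) h 2
    rw [Real.sq_sqrt h0, le_div_iff₀ (by positivity)] at h1
    linarith
  · intro h
    apply Real.le_sqrt_of_sq_le
    rw [le_div_iff₀ (by positivity)]
    linarith

theorem Nf_mono {s t : ℝ} (h : s ≤ t) : Nf s ≤ Nf t := by
  unfold Nf
  have hpi := Real.pi_pos
  exact Nat.floor_le_floor (Real.sqrt_le_sqrt (div_le_div_of_nonneg_right h (by positivity)))

theorem mem_iff {k N : ℕ} {v w : Fin k → ℕ} (hv : v ∈ tp k N) (hw : w ∈ tp k N) {t : ℝ} (ht : 0 ≤ t) :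
    (v ∈ tp k (Nf t) ∧ w ∈ tp k (Nf t)) ↔ tq v w ≤ t := by
  unfold tq
  rw [← le_Nf ht, max_le_iff, Finset.sup_le_iff, Finset.sup_le_iff]
  constructor
  · rintro ⟨h1, h2⟩
    exact ⟨fun i _ => (mem_tp.mp h1 i).2, fun i _ => (mem_tp.mp h2 i).2⟩
  · rintro ⟨h1, h2⟩
    exact ⟨mem_tp.mpr fun i => ⟨(mem_tp.mp hv i).1, h1 i (mem_univ i)⟩,
      mem_tp.mpr fun i => ⟨(mem_tp.mp hw i).1, h2 i (mem_univ i)⟩⟩

theorem tq_pos {k N : ℕ} (hk : 1 ≤ k) {v w : Fin k → ℕ} (hv : v ∈ tp k N) : 0 < tq v w := by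
  unfold tq
  have hpi := Real.pi_pos
  have h1 : 1 ≤ max (univ.sup v) (univ.sup w) := by
    have h2 : v ⟨0, hk⟩ ≤ univ.sup v := Finset.le_sup (f := v) (mem_univ _)
    exact ((mem_tp.mp hv ⟨0, hk⟩).1.trans h2).trans (le_max_left _ _)
  have h3 : (1 : ℝ) ≤ ((max (univ.sup v) (univ.sup w) : ℕ) : ℝ) := by exact_mod_cast h1
  positivity

theorem A_eq (k n : ℕ) : A k n = ∑ q ∈ tp k n ×ˢ tp k n, if pd q.1 = pd q.2 then 1 / (pd q.1 : ℝ) else 0 := by
  classical
  rw [Finset.sum_product]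
  have h1 : ∀ v ∈ tp k n, ∑ w ∈ tp k n, (if pd v = pd w then 1 / (pd v : ℝ) else 0) = (b k n (pd v) : ℝ) / pd v := by
    intro v _
    rw [← Finset.sum_filter, Finset.sum_const, nsmul_eq_mul, mul_one_div]
    congr 2
    unfold b tp pd
    congr 1
    apply Finset.filter_congr
    intro w _
    exact eq_comm
  rw [Finset.sum_congr rfl h1]
  have h2 : ∀ v ∈ tp k n, pd v ∈ Icc 1 (n ^ k) := fun v hv => Finset.mem_Icc.mpr ⟨pd_pos hv, pd_le hv⟩
  rw [← Finset.sum_fiberwise_of_maps_to h2]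
  unfold A
  refine Finset.sum_congr rfl fun m _ => ?_
  have h3 : ∑ v ∈ tp k n with pd v = m, (b k n (pd v) : ℝ) / pd v = ∑ v ∈ tp k n with pd v = m, (b k n m : ℝ) / m := by
    refine Finset.sum_congr rfl fun v hv => ?_
    rw [(Finset.mem_filter.mp hv).2]
  rw [h3, Finset.sum_const, nsmul_eq_mul]
  have h4 : (((tp k n).filter fun v => pd v = m).card : ℝ) = b k n m := by
    unfold b tp pd
    rfl
  rw [h4]
  ring

theorem ind_int {a T : ℝ} (ha : 0 < a) (haT : a ≤ T) :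
    IntervalIntegrable (fun t => if a ≤ t then (1 : ℝ) else 0) volume 0 T ∧
    ∫ t in (0 : ℝ)..T, (if a ≤ t then (1 : ℝ) else 0) = T - a := by
  have e : (fun t => if a ≤ t then (1 : ℝ) else 0) = (Set.Ici a).indicator (fun _ => (1 : ℝ)) := by
    funext t
    by_cases h : a ≤ t
    · rw [if_pos h, Set.indicator_of_mem (show t ∈ Set.Ici a from h)]
    · rw [if_neg h, Set.indicator_of_notMem (show t ∉ Set.Ici a from h)]
  have hT : 0 ≤ T := ha.le.trans haT
  constructor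
  · rw [e, intervalIntegrable_iff_integrableOn_Ioc_of_le hT]
    exact (integrableOn_const (by simp) (by simp)).indicator measurableSet_Ici
  · rw [e, intervalIntegral.integral_of_le hT, setIntegral_indicator measurableSet_Ici]
    have h1 : Set.Ioc 0 T ∩ Set.Ici a = Set.Icc a T := by
      ext t
      constructor
      · rintro ⟨h1, h2⟩
        exact ⟨h2, h1.2⟩
      · rintro ⟨h1, h2⟩
        exact ⟨⟨ha.trans_le h1, h2⟩, h1⟩
    rw [h1, setIntegral_const, smul_eq_mul, mul_one, Real.volume_real_Icc_of_le haT]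

theorem Ab_eq {k : ℕ} (hk : 1 ≤ k) {T : ℝ} (hT : 0 < T) :
    Ab k T = ∑ q ∈ tp k (Nf T) ×ˢ tp k (Nf T),
      if pd q.1 = pd q.2 then 1 / (pd q.1 : ℝ) * ((T - tq q.1 q.2) / T) else 0 := by
  have hA : ∀ t ∈ Set.uIcc (0 : ℝ) T, A k (Nf t) = ∑ q ∈ tp k (Nf T) ×ˢ tp k (Nf T),
      (if pd q.1 = pd q.2 then 1 / (pd q.1 : ℝ) else 0) * (if tq q.1 q.2 ≤ t then (1 : ℝ) else 0) := by
    intro t ht
    rw [Set.uIcc_of_le hT.le] at ht
    rw [A_eq]
    have hsub : tp k (Nf t) ×ˢ tp k (Nf t) ⊆ tp k (Nf T) ×ˢ tp k (Nf T) := by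
      have h0 : tp k (Nf t) ⊆ tp k (Nf T) := by
        intro v hv
        rw [mem_tp] at hv ⊢
        exact fun i => ⟨(hv i).1, (hv i).2.trans (Nf_mono ht.2)⟩
      exact Finset.product_subset_product h0 h0
    rw [← Finset.sum_subset hsub (f := fun q => (if pd q.1 = pd q.2 then 1 / (pd q.1 : ℝ) else 0) *
      (if tq q.1 q.2 ≤ t then (1 : ℝ) else 0))]
    · refine Finset.sum_congr rfl fun q hq => ?_
      have hq2 := Finset.mem_product.mp (hsub hq)
      have hq3 := Finset.mem_product.mp hq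
      rw [if_pos ((mem_iff hq2.1 hq2.2 ht.1).mp hq3), mul_one]
    · intro q hq hq'
      have hq2 := Finset.mem_product.mp hq
      have : ¬ tq q.1 q.2 ≤ t := fun h => hq' (Finset.mem_product.mpr ((mem_iff hq2.1 hq2.2 ht.1).mpr h))
      rw [if_neg this, mul_zero]
  unfold Ab
  have hi : ∀ q ∈ tp k (Nf T) ×ˢ tp k (Nf T), IntervalIntegrable (fun t =>
      (if pd q.1 = pd q.2 then 1 / (pd q.1 : ℝ) else 0) * (if tq q.1 q.2 ≤ t then (1 : ℝ) else 0)) volume 0 T ∧
      ∫ t in (0 : ℝ)..T, (if pd q.1 = pd q.2 then 1 / (pd q.1 : ℝ) else 0) * (if tq q.1 q.2 ≤ t then (1 : ℝ) else 0) =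
        (if pd q.1 = pd q.2 then 1 / (pd q.1 : ℝ) else 0) * (T - tq q.1 q.2) := by
    intro q hq
    have hq2 := Finset.mem_product.mp hq
    have h1 := tq_pos (w := q.2) hk hq2.1
    have h2 : tq q.1 q.2 ≤ T := (mem_iff hq2.1 hq2.2 hT.le).mp hq2
    obtain ⟨h3, h4⟩ := ind_int h1 h2
    exact ⟨h3.const_mul _, by rw [intervalIntegral.integral_const_mul, h4]⟩
  rw [intervalIntegral.integral_congr hA, intervalIntegral.integral_finsetSum fun q hq => (hi q hq).1,
    Finset.mul_sum]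
  refine Finset.sum_congr rfl fun q hq => ?_
  rw [(hi q hq).2]
  split_ifs
  · ring
  · ring

/-- the bounds for the kernel -/
theorem Kk_bd {k : ℕ} (hk : 1 ≤ k) {T : ℝ} (hT : 0 < T) {v w : Fin k → ℕ} (hv : v ∈ tp k (Nf T))
    (hw : w ∈ tp k (Nf T)) : ‖Kk 0 T v w‖ ≤ 1 ∧ (pd v ≠ pd w →
      ‖Kk 0 T v w‖ ≤ 2 / T * (1 / |Real.log (pd v) - Real.log (pd w)|)) ∧
      (pd v = pd w → Kk 0 T v w = (((T - tq v w) / T : ℝ) : ℂ)) := by
  have h1 := tq_pos (w := w) hk hv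
  have h2 : tq v w ≤ T := (mem_iff hv hw hT.le).mp ⟨hv, hw⟩
  set L := Real.log (pd v) - Real.log (pd w) with hL
  have e : Kk 0 T v w = 1 / (T : ℂ) * ∫ t in (tq v w)..T, Complex.exp (((-L * t : ℝ) : ℂ) * Complex.I) := by
    unfold Kk
    rw [← hL]
    congr 1
    apply intervalIntegral.integral_congr
    intro t _
    simp only
    congr 3
    push_cast
    ring
  have hTn : ‖(1 / (T : ℂ))‖ = 1 / T := by
    rw [norm_div, norm_one, Complex.norm_real, Real.norm_eq_abs, abs_of_pos hT]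
  refine ⟨?_, ?_, ?_⟩
  · rw [e, norm_mul, hTn]
    have h3 := intervalIntegral.norm_integral_le_of_norm_le_const (a := tq v w) (b := T)
      (f := fun t => Complex.exp (((-L * t : ℝ) : ℂ) * Complex.I)) (C := 1)
      (fun t _ => by rw [Complex.norm_exp_ofReal_mul_I])
    rw [one_mul, abs_of_nonneg (by linarith)] at h3
    calc 1 / T * ‖∫ t in (tq v w)..T, Complex.exp (((-L * t : ℝ) : ℂ) * Complex.I)‖ ≤ 1 / T * T :=
          mul_le_mul_of_nonneg_left (by linarith) (by positivity)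
      _ = 1 := by field_simp
  · intro hne
    have hL0 : L ≠ 0 := by
      intro h0
      apply hne
      have h3 : Real.log (pd v) = Real.log (pd w) := by linarith
      have hv0 : (0 : ℝ) < (pd v : ℝ) := Nat.cast_pos.mpr (pd_pos hv)
      have hw0 : (0 : ℝ) < (pd w : ℝ) := Nat.cast_pos.mpr (pd_pos hw)
      have h4 : (pd v : ℝ) = (pd w : ℝ) := Real.log_injOn_pos hv0 hw0 h3
      exact_mod_cast h4
    rw [e, norm_mul, hTn]
    have hc : (((-L : ℝ) : ℂ) * Complex.I) ≠ 0 := by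
      apply mul_ne_zero
      · exact_mod_cast neg_ne_zero.mpr hL0
      · exact Complex.I_ne_zero
    have h3 : ∫ t in (tq v w)..T, Complex.exp (((-L * t : ℝ) : ℂ) * Complex.I) =
        (Complex.exp ((((-L : ℝ) : ℂ) * Complex.I) * (T : ℂ)) - Complex.exp ((((-L : ℝ) : ℂ) * Complex.I) * (tq v w : ℂ))) /
          (((-L : ℝ) : ℂ) * Complex.I) := by
      rw [← integral_exp_mul_complex hc]
      apply intervalIntegral.integral_congr
      intro t _
      simp only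
      congr 1
      push_cast
      ring
    rw [h3, norm_div]
    have h4 : ‖(((-L : ℝ) : ℂ) * Complex.I)‖ = |L| := by
      rw [norm_mul, Complex.norm_I, mul_one, Complex.norm_real, Real.norm_eq_abs, abs_neg]
    have h5 : ∀ s : ℝ, ‖Complex.exp ((((-L : ℝ) : ℂ) * Complex.I) * (s : ℂ))‖ = 1 := by
      intro s
      have : (((-L : ℝ) : ℂ) * Complex.I) * (s : ℂ) = ((-L * s : ℝ) : ℂ) * Complex.I := by
        push_cast
        ring
      rw [this, Complex.norm_exp_ofReal_mul_I]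
    have h6 : ‖Complex.exp ((((-L : ℝ) : ℂ) * Complex.I) * (T : ℂ)) -
        Complex.exp ((((-L : ℝ) : ℂ) * Complex.I) * (tq v w : ℂ))‖ ≤ 2 := by
      refine (norm_sub_le _ _).trans ?_
      rw [h5, h5]
      norm_num
    rw [h4]
    have hLp : 0 < |L| := abs_pos.mpr hL0
    calc 1 / T * (‖Complex.exp ((((-L : ℝ) : ℂ) * Complex.I) * (T : ℂ)) -
        Complex.exp ((((-L : ℝ) : ℂ) * Complex.I) * (tq v w : ℂ))‖ / |L|) ≤ 1 / T * (2 / |L|) :=
          mul_le_mul_of_nonneg_left (div_le_div_of_nonneg_right h6 hLp.le) (by positivity)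
      _ = 2 / T * (1 / |L|) := by ring
  · intro heq
    have hL0 : L = 0 := by rw [hL, heq, sub_self]
    rw [e, hL0]
    simp only [neg_zero, zero_mul, Complex.ofReal_zero, Complex.exp_zero, intervalIntegral.integral_const]
    rw [Complex.real_smul, mul_one]
    push_cast
    ring

end VJ2

open VJ2 in
theorem pVJ2 (hXTUP : S_XTUP) (hVG : S_VG) (hQD : S_QD) (hQSB : S_QSB) : S_VJ2 := by
  classical
  intro k ε hk hε
  obtain ⟨C, hC, hQ⟩ := hQSB k ε hk hε
  refine ⟨2 * C, by positivity, fun T hT => ?_⟩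
  have hT0 : 0 < T := by linarith
  set N := Nf T with hN
  set I := (tp k N ×ˢ tp k N).filter (fun q => pd q.1 ≠ pd q.2) with hI
  have hX : ∀ θ : ℕ → ℝ, X θ k k 0 T - (Ab k T : ℂ) = ∑ q ∈ I,
      ((1 / Real.sqrt ((pd q.1 : ℝ) * pd q.2) : ℝ) : ℂ) * Kk 0 T q.1 q.2 * tw θ (pd q.1) *
        (starRingEnd ℂ) (tw θ (pd q.2)) := by
    intro θ
    rw [hXTUP θ k k 0 T hT0 (by omega), ← hN, hI, Ab_eq hk hT0, ← hN,
      ← Finset.sum_filter_add_sum_filter_not (tp k N ×ˢ tp k N) (fun q => pd q.1 = pd q.2)]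
    have h1 : ∑ q ∈ (tp k N ×ˢ tp k N).filter (fun q => pd q.1 = pd q.2),
        ((1 / Real.sqrt ((pd q.1 : ℝ) * pd q.2) : ℝ) : ℂ) * Kk 0 T q.1 q.2 * tw θ (pd q.1) *
        (starRingEnd ℂ) (tw θ (pd q.2)) = ((∑ q ∈ tp k N ×ˢ tp k N,
        (if pd q.1 = pd q.2 then 1 / (pd q.1 : ℝ) * ((T - tq q.1 q.2) / T) else 0) : ℝ) : ℂ) := by
      rw [← Finset.sum_filter, Complex.ofReal_sum]
      refine Finset.sum_congr rfl fun q hq => ?_
      obtain ⟨hq1, hq2⟩ := Finset.mem_filter.mp hq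
      have hq3 := Finset.mem_product.mp hq1
      rw [(Kk_bd hk hT0 hq3.1 hq3.2).2.2 hq2, ← hq2, mul_assoc, tw_conj, mul_one]
      rw [← pow_two, Real.sqrt_sq (Nat.cast_nonneg _)]
      push_cast
      ring
    rw [h1]
    ring
  simp_rw [hX]
  have hVG' := hVG _ I (fun q : (Fin k → ℕ) × (Fin k → ℕ) => pd q.1) (fun q => pd q.2)
    (fun q => 1 / Real.sqrt ((pd q.1 : ℝ) * pd q.2)) (fun q => Kk 0 T q.1 q.2) (fun q hq => by
      have hq3 := Finset.mem_product.mp (Finset.mem_filter.mp hq).1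
      exact ⟨(pd_pos hq3.1).ne', (pd_pos hq3.2).ne', by positivity⟩)
  refine hVG'.trans ?_
  have h1 : ∑ i ∈ I, ∑ i' ∈ I, (if pd i.1 * pd i'.2 = pd i'.1 * pd i.2 then
      1 / Real.sqrt ((pd i.1 : ℝ) * pd i.2) * (1 / Real.sqrt ((pd i'.1 : ℝ) * pd i'.2)) *
        (‖Kk 0 T i.1 i.2‖ * ‖Kk 0 T i'.1 i'.2‖) else 0) ≤
      2 / T * QS (fun m => (b k N m : ℝ) / Real.sqrt m) (N ^ k) := by
    refine le_trans ?_ (mul_le_mul_of_nonneg_left (hQD k N) (by positivity))
    rw [Finset.mul_sum, hI, Finset.sum_filter]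
    refine Finset.sum_le_sum fun q hq => ?_
    have hq3 := Finset.mem_product.mp hq
    have hK := Kk_bd hk hT0 hq3.1 hq3.2
    by_cases hne : pd q.1 ≠ pd q.2
    · rw [if_pos hne, Finset.mul_sum, Finset.sum_filter]
      refine Finset.sum_le_sum fun r hr => ?_
      have hr3 := Finset.mem_product.mp hr
      have hK' := Kk_bd hk hT0 hr3.1 hr3.2
      have hnn : 0 ≤ 2 / T * (if pd q.1 * pd r.2 = pd r.1 * pd q.2 ∧ pd q.1 ≠ pd q.2 then
        1 / Real.sqrt ((pd q.1 : ℝ) * pd q.2) * (1 / Real.sqrt ((pd r.1 : ℝ) * pd r.2)) /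
        |Real.log (pd q.1) - Real.log (pd q.2)| else 0) := by
        split_ifs <;> positivity
      by_cases hne' : pd r.1 ≠ pd r.2
      · rw [if_pos hne']
        by_cases hc : pd q.1 * pd r.2 = pd r.1 * pd q.2
        · rw [if_pos hc, if_pos ⟨hc, hne⟩]
          have h2 : ‖Kk 0 T q.1 q.2‖ * ‖Kk 0 T r.1 r.2‖ ≤
              2 / T * (1 / |Real.log (pd q.1) - Real.log (pd q.2)|) := by
            calc ‖Kk 0 T q.1 q.2‖ * ‖Kk 0 T r.1 r.2‖ ≤ ‖Kk 0 T q.1 q.2‖ * 1 :=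
                  mul_le_mul_of_nonneg_left hK'.1 (norm_nonneg _)
              _ ≤ _ := by rw [mul_one]; exact hK.2.1 hne
          calc 1 / Real.sqrt ((pd q.1 : ℝ) * pd q.2) * (1 / Real.sqrt ((pd r.1 : ℝ) * pd r.2)) *
                (‖Kk 0 T q.1 q.2‖ * ‖Kk 0 T r.1 r.2‖) ≤
                1 / Real.sqrt ((pd q.1 : ℝ) * pd q.2) * (1 / Real.sqrt ((pd r.1 : ℝ) * pd r.2)) *
                (2 / T * (1 / |Real.log (pd q.1) - Real.log (pd q.2)|)) :=
                mul_le_mul_of_nonneg_left h2 (by positivity)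
            _ = _ := by ring
        · rw [if_neg hc]
          exact hnn
      · rw [if_neg hne']
        exact hnn
    · rw [if_neg hne]
      apply mul_nonneg (by positivity)
      refine Finset.sum_nonneg fun r _ => ?_
      split_ifs <;> positivity
  refine h1.trans ?_
  rcases Nat.eq_zero_or_pos N with h0 | hNp
  · -- empty sums
    have hQS : QS (fun m => (b k N m : ℝ) / Real.sqrt m) (N ^ k) = 0 := by
      rw [h0, zero_pow (by omega)]
      unfold QS
      apply Finset.sum_eq_zero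
      intro q hq
      unfold Pool.Agent.T2H98.RT.quads at hq
      simp at hq
    rw [hQS, mul_zero]
    positivity
  · have h2 := hQ N hNp
    have hNT : (N : ℝ) ≤ T := by
      have h3 : (N : ℝ) ≤ Real.sqrt (T / (2 * Real.pi)) := Nat.floor_le (Real.sqrt_nonneg _)
      have hpi : 3 < Real.pi := Real.pi_gt_three
      have h4 : Real.sqrt (T / (2 * Real.pi)) ≤ T := by
        rw [Real.sqrt_le_left hT0.le, div_le_iff₀ (by positivity)]
        nlinarith [mul_pos hT0 hT0]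
      exact h3.trans h4
    calc 2 / T * QS (fun m => (b k N m : ℝ) / Real.sqrt m) (N ^ k) ≤ 2 / T * (C * (N : ℝ) ^ ε) :=
          mul_le_mul_of_nonneg_left h2 (by positivity)
      _ ≤ 2 / T * (C * T ^ ε) := by
          apply mul_le_mul_of_nonneg_left _ (by positivity)
          exact mul_le_mul_of_nonneg_left (Real.rpow_le_rpow (Nat.cast_nonneg N) hNT hε.le) hC.le
      _ = 2 * C * T ^ (ε - 1) := by
          rw [Real.rpow_sub_one hT0.ne']
          ring

end Pool.Agent.T2H98.RS
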