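import Pool.Agent.T2H98.RS.Stm

/-! # Package YB: the second moment of `M` -/

set_option autoImplicit false

open MeasureTheory Filter Topology Finset

namespace Pool.Agent.T2H98.RS

open Pool.Agent.T2H98.RT (P tw S A b gam QS S_MUL S_OR S_LIM S_AE S_QUAD S_RSB S_DIV)

namespace YB

/-- `X` is continuous and bounded in `θ` -/
lemma X_cont (hXTUP : S_XTUP) (hMUL : S_MUL) (j l : ℕ) (h : ℤ) {T : ℝ} (hT : 0 < T)
    (hjl : 1 ≤ j + l) : Continuous (fun θ : ℕ → ℝ => X θ j l h T) ∧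
      ∃ B : ℝ, ∀ θ : ℕ → ℝ, ‖X θ j l h T‖ ≤ B := by
  have hcont : ∀ n : ℕ, Continuous fun θ : ℕ → ℝ => tw θ n := hMUL.2.2.2
  have hnorm : ∀ (θ : ℕ → ℝ) (n : ℕ), ‖tw θ n‖ = 1 := hMUL.2.1
  constructor
  · have h1 : (fun θ : ℕ → ℝ => X θ j l h T) = fun θ =>
        ∑ q ∈ tp j (Nf T) ×ˢ tp l (Nf T),
          ((1 / Real.sqrt ((pd q.1 : ℝ) * pd q.2) : ℝ) : ℂ) * Kk h T q.1 q.2 * tw θ (pd q.1) *
            (starRingEnd ℂ) (tw θ (pd q.2)) := funext fun θ => hXTUP θ j l h T hT hjl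
    rw [h1]
    refine continuous_finset_sum _ fun q _ => ?_
    exact (continuous_const.mul (hcont _)).mul (Complex.continuous_conj.comp (hcont _))
  · refine ⟨∑ q ∈ tp j (Nf T) ×ˢ tp l (Nf T),
      ‖((1 / Real.sqrt ((pd q.1 : ℝ) * pd q.2) : ℝ) : ℂ) * Kk h T q.1 q.2‖, fun θ => ?_⟩
    rw [hXTUP θ j l h T hT hjl]
    refine (norm_sum_le _ _).trans (Finset.sum_le_sum fun q _ => ?_)
    rw [norm_mul, norm_mul, hnorm, RCLike.norm_conj, hnorm, mul_one, mul_one]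

end YB

open YB in
theorem pYB (hEXPZ : S_EXPZ) (hVJ1 : S_VJ1) (hVJ2 : S_VJ2) (_hMM : S_MM) (_hSM : S_SM)
    (hXTUP : S_XTUP) (hMUL : S_MUL) : S_YB := by
  intro k ε hk hε
  obtain ⟨C₀, hC₀, hv₀⟩ := hVJ2 k ε hk hε
  have hex : ∀ j : ℕ, ∃ C : ℝ, 0 < C ∧ (j ≤ 2 * k → j ≠ k → ∀ T : ℝ, 1 ≤ T →
      ∫ θ, ‖X θ j (2 * k - j) ((j : ℤ) - k) T‖ ^ 2 ∂P ≤ C * T ^ (ε - 1)) := by
    intro j
    by_cases h : j ≤ 2 * k ∧ j ≠ k
    · obtain ⟨C, hC, hv⟩ := hVJ1 k j ε hk h.1 h.2 hε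
      exact ⟨C, hC, fun _ _ => hv⟩
    · exact ⟨1, one_pos, fun h1 h2 => absurd ⟨h1, h2⟩ h⟩
  choose Cf hCf hvf using hex
  refine ⟨(2 * k + 1 : ℕ) * ∑ j ∈ range (2 * k + 1), ((2 * k).choose j : ℝ) ^ 2 * (C₀ + Cf j), ?_,
    fun T hT => ?_⟩
  · refine mul_pos (by positivity) ?_
    refine Finset.sum_pos (fun j hj => ?_) ⟨0, by simp⟩
    rw [mem_range] at hj
    have h1 : 0 < (2 * k).choose j := Nat.choose_pos (by omega)
    have h2 := hCf j
    positivity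
  have hT0 : 0 < T := by linarith
  -- the terms
  set Y : ℕ → (ℕ → ℝ) → ℂ := fun j θ =>
    X θ j (2 * k - j) ((j : ℤ) - k) T - (if j = k then (Ab k T : ℂ) else 0) with hY
  have hYc : ∀ j ∈ range (2 * k + 1), Continuous (Y j) ∧ ∃ B : ℝ, ∀ θ, ‖Y j θ‖ ≤ B := by
    intro j hj
    rw [mem_range] at hj
    obtain ⟨h1, B, h2⟩ := X_cont hXTUP hMUL j (2 * k - j) ((j : ℤ) - k) hT0 (by omega)
    refine ⟨h1.sub continuous_const, B + ‖(if j = k then (Ab k T : ℂ) else 0)‖, fun θ => ?_⟩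
    exact (norm_sub_le _ _).trans (by linarith [h2 θ])
  have hYi : ∀ j ∈ range (2 * k + 1), Integrable (fun θ => ‖Y j θ‖ ^ 2) P := by
    intro j hj
    obtain ⟨h1, B, h2⟩ := hYc j hj
    refine Integrable.of_bound (h1.norm.pow 2).aestronglyMeasurable (B ^ 2)
      (Eventually.of_forall fun θ => ?_)
    rw [Real.norm_eq_abs, abs_of_nonneg (by positivity)]
    exact pow_le_pow_left₀ (norm_nonneg _) (h2 θ) 2
  have hYv : ∀ j ∈ range (2 * k + 1), ∫ θ, ‖Y j θ‖ ^ 2 ∂P ≤ (C₀ + Cf j) * T ^ (ε - 1) := by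
    intro j hj
    rw [mem_range] at hj
    have hTp : 0 < T ^ (ε - 1) := Real.rpow_pos_of_pos hT0 _
    by_cases h : j = k
    · have h1 : ∀ θ, Y j θ = X θ k k 0 T - (Ab k T : ℂ) := fun θ => by
        simp only [hY, h, if_true]
        rw [sub_self, show 2 * k - k = k by omega]
      simp_rw [h1]
      refine (hv₀ T hT).trans ?_
      have := hCf j
      nlinarith
    · have h1 : ∀ θ, Y j θ = X θ j (2 * k - j) ((j : ℤ) - k) T := fun θ => by
        simp only [hY, h, if_false, sub_zero]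
      simp_rw [h1]
      refine (hvf j (by omega) h T hT).trans ?_
      nlinarith
  -- the decomposition
  have hdec : ∀ θ, ((M θ k T - ((2 * k).choose k : ℝ) * Ab k T : ℝ) : ℂ) =
      ∑ j ∈ range (2 * k + 1), ((2 * k).choose j : ℂ) * Y j θ := by
    intro θ
    push_cast
    rw [hEXPZ θ k T hT0]
    simp only [hY, mul_sub, Finset.sum_sub_distrib, mul_ite, mul_zero]
    congr 1
    rw [Finset.sum_ite_eq' (range (2 * k + 1)) k, if_pos (by rw [mem_range]; omega)]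
  have hsq : ∀ θ, (M θ k T - ((2 * k).choose k : ℝ) * Ab k T) ^ 2 ≤
      (2 * k + 1 : ℕ) * ∑ j ∈ range (2 * k + 1), ((2 * k).choose j : ℝ) ^ 2 * ‖Y j θ‖ ^ 2 := by
    intro θ
    have h1 : |M θ k T - ((2 * k).choose k : ℝ) * Ab k T| ≤
        ∑ j ∈ range (2 * k + 1), ((2 * k).choose j : ℝ) * ‖Y j θ‖ := by
      rw [← Real.norm_eq_abs, ← Complex.norm_real, hdec θ]
      refine (norm_sum_le _ _).trans (le_of_eq (Finset.sum_congr rfl fun j _ => ?_))
      rw [norm_mul, Complex.norm_natCast]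
    have h2 : (∑ j ∈ range (2 * k + 1), ((2 * k).choose j : ℝ) * ‖Y j θ‖) ^ 2 ≤
        ((range (2 * k + 1)).card : ℝ) *
          ∑ j ∈ range (2 * k + 1), (((2 * k).choose j : ℝ) * ‖Y j θ‖) ^ 2 :=
      sq_sum_le_card_mul_sum_sq
    rw [card_range] at h2
    calc (M θ k T - ((2 * k).choose k : ℝ) * Ab k T) ^ 2
        = |M θ k T - ((2 * k).choose k : ℝ) * Ab k T| ^ 2 := (sq_abs _).symm
      _ ≤ (∑ j ∈ range (2 * k + 1), ((2 * k).choose j : ℝ) * ‖Y j θ‖) ^ 2 :=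
          pow_le_pow_left₀ (abs_nonneg _) h1 2
      _ ≤ _ := h2
      _ = _ := by simp_rw [mul_pow]
  calc ∫ θ, (M θ k T - ((2 * k).choose k : ℝ) * Ab k T) ^ 2 ∂P
      ≤ ∫ θ, (2 * k + 1 : ℕ) *
          ∑ j ∈ range (2 * k + 1), ((2 * k).choose j : ℝ) ^ 2 * ‖Y j θ‖ ^ 2 ∂P := by
        refine integral_mono_of_nonneg (Eventually.of_forall fun θ => sq_nonneg _) ?_
          (Eventually.of_forall hsq)
        exact (integrable_finset_sum _ fun j hj => (hYi j hj).const_mul _).const_mul _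
    _ = (2 * k + 1 : ℕ) *
          ∑ j ∈ range (2 * k + 1), ((2 * k).choose j : ℝ) ^ 2 * ∫ θ, ‖Y j θ‖ ^ 2 ∂P := by
        rw [integral_const_mul, integral_finset_sum _ fun j hj => (hYi j hj).const_mul _]
        simp_rw [integral_const_mul]
    _ ≤ (2 * k + 1 : ℕ) *
          ∑ j ∈ range (2 * k + 1), ((2 * k).choose j : ℝ) ^ 2 * ((C₀ + Cf j) * T ^ (ε - 1)) := by
        refine mul_le_mul_of_nonneg_left (Finset.sum_le_sum fun j hj => ?_) (by positivity)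
        exact mul_le_mul_of_nonneg_left (hYv j hj) (by positivity)
    _ = _ := by
        rw [mul_assoc, Finset.sum_mul]
        congr 1
        refine Finset.sum_congr rfl fun j _ => ?_
        ring

end Pool.Agent.T2H98.RS
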