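import Pool.Agent.T2H98.RT.All
import Pool.Agent.T2H98.RS.AB
import Pool.Agent.T2H98.RS.AUP
import Pool.Agent.T2H98.RS.EXPZ
import Pool.Agent.T2H98.RS.FINR
import Pool.Agent.T2H98.RS.MM
import Pool.Agent.T2H98.RS.QD
import Pool.Agent.T2H98.RS.QSB
import Pool.Agent.T2H98.RS.QT
import Pool.Agent.T2H98.RS.SM
import Pool.Agent.T2H98.RS.VDC
import Pool.Agent.T2H98.RS.VG
import Pool.Agent.T2H98.RS.VJ1
import Pool.Agent.T2H98.RS.VJ2
import Pool.Agent.T2H98.RS.XTUP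
import Pool.Agent.T2H98.RS.YB

set_option autoImplicit false

namespace Pool.Agent.T2H98.RS

open Pool.Agent.T2H98.RT (pMUL pOR pQUAD pRSB pDIV pAE vLIM)

theorem vSM : S_SM := pSM pMUL
theorem vMM : S_MM := pMM vSM
theorem vXTUP : S_XTUP := pXTUP pMUL
theorem vVG : S_VG := pVG pMUL pOR
theorem vVJ1 : S_VJ1 := pVJ1 vXTUP vVG pVDC pQT (pAUP vLIM)
theorem vVJ2 : S_VJ2 := pVJ2 vXTUP vVG pQD (pQSB pQUAD pRSB pDIV)
theorem vYB : S_YB := pYB (pEXPZ vSM) vVJ1 vVJ2 vMM vSM vXTUP pMUL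
theorem vFINR : S_FINR := pFINR vYB pAE vMM (pAB vLIM)

end Pool.Agent.T2H98.RS
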