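import Pool.Agent.T2H98.RS.Stm

/-!
# RS package XTUP: expansion of the mixed moments
-/

set_option autoImplicit false

open MeasureTheory Filter Topology Finset

namespace Pool.Agent.T2H98.RS

open Pool.Agent.T2H98.RT (P tw S A b gam QS S_MUL S_OR S_LIM S_AE S_QUAD S_RSB S_DIV)

namespace XTUP

theorem prod_G {G : ℕ → ℂ} (h1 : G 1 = 1) (hm : ∀ m n : ℕ, m ≠ 0 → n ≠ 0 → G (m * n) = G m * G n)
    {j : ℕ} (v : Fin j → ℕ) (hv : ∀ i, v i ≠ 0) (s : Finset (Fin j)) :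
    G (∏ i ∈ s, v i) = ∏ i ∈ s, G (v i) := by
  classical
  induction s using Finset.induction_on with
  | empty => simp [h1]
  | insert a s ha ih =>
    rw [Finset.prod_insert ha, Finset.prod_insert ha, hm _ _ (hv a), ih]
    exact Finset.prod_ne_zero_iff.2 fun i _ => hv i

/-- the terms of the sum -/
noncomputable def G (θ : ℕ → ℝ) (t : ℝ) (n : ℕ) : ℂ :=
  tw θ n * ((1 / Real.sqrt n : ℝ) : ℂ) * Complex.exp (((-(t * Real.log n) : ℝ) : ℂ) * Complex.I)

theorem G_eq (θ : ℕ → ℝ) (t : ℝ) (n : ℕ) (hn : n ≠ 0) :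
    tw θ n * (n : ℂ) ^ (-(1 / 2 : ℂ) - t * Complex.I) = G θ t n := by
  unfold G
  rw [mul_assoc]
  congr 1
  have hn0 : (0 : ℝ) < n := by exact_mod_cast Nat.pos_of_ne_zero hn
  have hnc : (n : ℂ) ≠ 0 := by exact_mod_cast hn
  rw [Complex.cpow_def_of_ne_zero hnc]
  have h1 : Complex.log (n : ℂ) = ((Real.log n : ℝ) : ℂ) := by
    rw [Complex.natCast_log]
  have h2 : (1 / Real.sqrt n : ℝ) = Real.exp (-(1 / 2) * Real.log n) := by
    rw [Real.sqrt_eq_rpow, one_div, ← Real.rpow_neg hn0.le, Real.rpow_def_of_pos hn0]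
    congr 1
    ring
  rw [h1, h2, Complex.ofReal_exp, ← Complex.exp_add]
  congr 1
  push_cast
  ring

theorem G_one (hMUL : S_MUL) (θ : ℕ → ℝ) (t : ℝ) : G θ t 1 = 1 := by
  unfold G
  rw [hMUL.2.2.1 θ]
  simp

theorem G_mul (hMUL : S_MUL) (θ : ℕ → ℝ) (t : ℝ) (m n : ℕ) (hm : m ≠ 0) (hn : n ≠ 0) :
    G θ t (m * n) = G θ t m * G θ t n := by
  unfold G
  have hm0 : (0 : ℝ) < m := by exact_mod_cast Nat.pos_of_ne_zero hm
  have hn0 : (0 : ℝ) < n := by exact_mod_cast Nat.pos_of_ne_zero hn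
  rw [hMUL.1 θ m n hm hn]
  have h1 : (1 / Real.sqrt ((m * n : ℕ) : ℝ) : ℝ) = 1 / Real.sqrt m * (1 / Real.sqrt n) := by
    push_cast
    rw [Real.sqrt_mul hm0.le]
    field_simp
  have h2 : (-(t * Real.log ((m * n : ℕ) : ℝ)) : ℝ) = -(t * Real.log m) + -(t * Real.log n) := by
    push_cast
    rw [Real.log_mul hm0.ne' hn0.ne']
    ring
  rw [h1, h2]
  push_cast
  rw [add_mul, Complex.exp_add]
  ring

theorem mem_tp {j N : ℕ} {v : Fin j → ℕ} : v ∈ tp j N ↔ ∀ i, 1 ≤ v i ∧ v i ≤ N := by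
  unfold tp
  rw [Fintype.mem_piFinset]
  simp only [Finset.mem_Icc]

theorem S_pow (hMUL : S_MUL) (θ : ℕ → ℝ) (t : ℝ) (N j : ℕ) :
    S θ N t ^ j = ∑ v ∈ tp j N, G θ t (pd v) := by
  have h1 : S θ N t = ∑ n ∈ Icc 1 N, G θ t n := by
    unfold S
    refine Finset.sum_congr rfl fun n hn => ?_
    rw [Finset.mem_Icc] at hn
    exact G_eq θ t n (by omega)
  have h2 : S θ N t ^ j = ∏ _i : Fin j, ∑ n ∈ Icc 1 N, G θ t n := by
    rw [Finset.prod_const, Finset.card_univ, Fintype.card_fin, h1]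
  rw [h2, Finset.prod_univ_sum]
  refine Finset.sum_congr rfl fun v hv => ?_
  have hv' : v ∈ tp j N := hv
  rw [mem_tp] at hv'
  unfold pd
  exact (prod_G (G_one hMUL θ t) (G_mul hMUL θ t) v (fun i => by have := (hv' i).1; omega)
    Finset.univ).symm

theorem pd_pos {j N : ℕ} {v : Fin j → ℕ} (hv : v ∈ tp j N) : (0 : ℝ) < pd v := by
  rw [mem_tp] at hv
  have : 0 < pd v := by
    unfold pd
    exact Finset.prod_pos fun i _ => by have := (hv i).1; omega
  exact_mod_cast this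

theorem le_Nf {m : ℕ} {t : ℝ} (ht : 0 ≤ t) : m ≤ Nf t ↔ 2 * Real.pi * (m : ℝ) ^ 2 ≤ t := by
  unfold Nf
  have hpi : (0 : ℝ) < 2 * Real.pi := by positivity
  rw [Nat.le_floor_iff (Real.sqrt_nonneg _),
    Real.le_sqrt (Nat.cast_nonneg m) (div_nonneg ht hpi.le), le_div_iff₀ hpi, mul_comm]

theorem small_iff {j l M : ℕ} {t : ℝ} (ht : 0 ≤ t) (hM : Nf t ≤ M) (q : (Fin j → ℕ) × (Fin l → ℕ)) :
    q ∈ tp j (Nf t) ×ˢ tp l (Nf t) ↔ q ∈ tp j M ×ˢ tp l M ∧ tq q.1 q.2 ≤ t := by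
  unfold tq
  rw [← le_Nf ht, Finset.mem_product, Finset.mem_product, mem_tp, mem_tp, mem_tp, mem_tp,
    max_le_iff, Finset.sup_le_iff, Finset.sup_le_iff]
  constructor
  · rintro ⟨h1, h2⟩
    exact ⟨⟨fun i => ⟨(h1 i).1, (h1 i).2.trans hM⟩, fun i => ⟨(h2 i).1, (h2 i).2.trans hM⟩⟩,
      fun i _ => (h1 i).2, fun i _ => (h2 i).2⟩
  · rintro ⟨⟨h1, h2⟩, h3, h4⟩
    exact ⟨fun i => ⟨(h1 i).1, h3 i (Finset.mem_univ i)⟩, fun i => ⟨(h2 i).1, h4 i (Finset.mem_univ i)⟩⟩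

theorem cont_fi : Continuous fi := by
  have hc : (0 : ℝ) < 2 * Real.pi * Real.exp 1 := by positivity
  have h1 : fi = fun t => (2 * Real.pi * Real.exp 1) / 2 *
      ((t / (2 * Real.pi * Real.exp 1)) * Real.log (t / (2 * Real.pi * Real.exp 1))) -
        Real.pi / 8 := by
    funext t
    unfold fi
    field_simp
  rw [h1]
  have h2 : Continuous (fun t : ℝ => t / (2 * Real.pi * Real.exp 1)) := continuous_id.div_const _
  exact (continuous_const.mul (Real.continuous_mul_log.comp h2)).sub continuous_const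

/-- the exponential -/
noncomputable def e {j l : ℕ} (h : ℤ) (q : (Fin j → ℕ) × (Fin l → ℕ)) (t : ℝ) : ℂ :=
  Complex.exp (((2 * h * fi t - t * (Real.log (pd q.1) - Real.log (pd q.2)) : ℝ) : ℂ) * Complex.I)

theorem cont_e {j l : ℕ} (h : ℤ) (q : (Fin j → ℕ) × (Fin l → ℕ)) : Continuous (e h q) := by
  unfold e
  have := cont_fi
  fun_prop

theorem int_ind {g : ℝ → ℂ} (hg : Continuous g) (τ : ℝ) (a b : ℝ) :
    IntervalIntegrable ((Set.Ici τ).indicator g) volume a b := by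
  have h := hg.intervalIntegrable a b (μ := volume)
  exact ⟨h.1.indicator measurableSet_Ici, h.2.indicator measurableSet_Ici⟩

theorem integral_ind {g : ℝ → ℂ} (hg : Continuous g) {τ T : ℝ} (h0 : 0 ≤ τ) (hT : τ ≤ T) :
    ∫ t in (0 : ℝ)..T, (Set.Ici τ).indicator g t = ∫ t in τ..T, g t := by
  rw [← intervalIntegral.integral_add_adjacent_intervals (int_ind hg τ 0 τ) (int_ind hg τ τ T)]
  have h1 : ∫ t in (0 : ℝ)..τ, (Set.Ici τ).indicator g t = 0 := by
    refine intervalIntegral.integral_zero_ae ?_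
    have h2 : ∀ᵐ x : ℝ ∂volume, x ∉ ({τ} : Set ℝ) := (Set.countable_singleton τ).ae_notMem volume
    filter_upwards [h2] with x hx hx2
    rw [Set.uIoc_of_le h0] at hx2
    rw [Set.indicator_of_notMem]
    intro h3
    have h4 : x = τ := le_antisymm hx2.2 h3
    exact hx h4
  rw [h1, zero_add]
  refine intervalIntegral.integral_congr fun x hx => ?_
  rw [Set.uIcc_of_le hT] at hx
  exact Set.indicator_of_mem (show x ∈ Set.Ici τ from hx.1) g

end XTUP

open XTUP in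
theorem pXTUP (hMUL : S_MUL) : S_XTUP := by
  intro θ j l h T hT _
  set c : (Fin j → ℕ) × (Fin l → ℕ) → ℂ := fun q =>
    ((1 / Real.sqrt ((pd q.1 : ℝ) * pd q.2) : ℝ) : ℂ) * tw θ (pd q.1) *
      (starRingEnd ℂ) (tw θ (pd q.2)) with hc
  have hpt : ∀ t : ℝ, 0 ≤ t → t ≤ T →
      Complex.exp (((2 * h * fi t : ℝ) : ℂ) * Complex.I) * S θ (Nf t) t ^ j *
        (starRingEnd ℂ) (S θ (Nf t) t) ^ l =
      ∑ q ∈ tp j (Nf T) ×ˢ tp l (Nf T), c q * (Set.Ici (tq q.1 q.2)).indicator (e h q) t := by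
    intro t ht htT
    have hM : Nf t ≤ Nf T := by
      rw [le_Nf hT.le]
      exact ((le_Nf ht).1 le_rfl).trans htT
    have h1 : ∑ q ∈ tp j (Nf T) ×ˢ tp l (Nf T), c q * (Set.Ici (tq q.1 q.2)).indicator (e h q) t =
        ∑ q ∈ tp j (Nf t) ×ˢ tp l (Nf t), c q * e h q t := by
      classical
      have h2 : tp j (Nf t) ×ˢ tp l (Nf t) =
          (tp j (Nf T) ×ˢ tp l (Nf T)).filter (fun q => tq q.1 q.2 ≤ t) := by
        ext q
        rw [Finset.mem_filter, small_iff ht hM q]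
      rw [h2, Finset.sum_filter]
      refine Finset.sum_congr rfl fun q _ => ?_
      by_cases h3 : tq q.1 q.2 ≤ t
      · rw [if_pos h3, Set.indicator_of_mem (show t ∈ Set.Ici (tq q.1 q.2) from h3)]
      · rw [if_neg h3, Set.indicator_of_notMem (show t ∉ Set.Ici (tq q.1 q.2) from h3), mul_zero]
    rw [h1, S_pow hMUL, ← map_pow, S_pow hMUL, map_sum, mul_assoc, Finset.sum_mul_sum,
      Finset.sum_product, Finset.mul_sum]
    refine Finset.sum_congr rfl fun v hv => ?_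
    rw [Finset.mul_sum]
    refine Finset.sum_congr rfl fun w hw => ?_
    have hv0 := pd_pos hv
    have hw0 := pd_pos hw
    rw [hc]
    unfold e G
    simp only [map_mul, Complex.conj_ofReal]
    rw [← Complex.exp_conj]
    simp only [map_mul, Complex.conj_ofReal, Complex.conj_I]
    have e1 : (1 / Real.sqrt ((pd v : ℝ) * pd w) : ℝ) = 1 / Real.sqrt (pd v) * (1 / Real.sqrt (pd w)) := by
      rw [Real.sqrt_mul hv0.le]
      field_simp
    have e2 : Complex.exp (((2 * h * fi t - t * (Real.log (pd v) - Real.log (pd w)) : ℝ) : ℂ) *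
        Complex.I) = Complex.exp (((2 * h * fi t : ℝ) : ℂ) * Complex.I) *
        (Complex.exp (((-(t * Real.log (pd v)) : ℝ) : ℂ) * Complex.I) *
          Complex.exp (((-(t * Real.log (pd w)) : ℝ) : ℂ) * -Complex.I)) := by
      rw [← Complex.exp_add, ← Complex.exp_add]
      congr 1
      push_cast
      ring
    rw [e1, e2]
    push_cast
    ring
  unfold X
  have hint : (∫ t in (0:ℝ)..T, Complex.exp (((2 * h * fi t : ℝ) : ℂ) * Complex.I) *
      S θ (Nf t) t ^ j * (starRingEnd ℂ) (S θ (Nf t) t) ^ l) =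
      ∑ q ∈ tp j (Nf T) ×ˢ tp l (Nf T), c q * ∫ t in (tq q.1 q.2)..T, e h q t := by
    rw [intervalIntegral.integral_congr (g := fun t => ∑ q ∈ tp j (Nf T) ×ˢ tp l (Nf T),
      c q * (Set.Ici (tq q.1 q.2)).indicator (e h q) t) (fun t ht => by
        rw [Set.uIcc_of_le hT.le] at ht
        exact hpt t ht.1 ht.2)]
    rw [intervalIntegral.integral_finsetSum fun q _ =>
      (int_ind (cont_e h q) (tq q.1 q.2) 0 T).const_mul (c q)]
    refine Finset.sum_congr rfl fun q hq => ?_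
    rw [intervalIntegral.integral_const_mul]
    congr 1
    refine integral_ind (cont_e h q) ?_ ?_
    · unfold tq
      positivity
    · exact ((small_iff hT.le le_rfl q).1 hq).2
  rw [hint, Finset.mul_sum]
  refine Finset.sum_congr rfl fun q _ => ?_
  rw [hc]
  unfold Kk e
  ring

end Pool.Agent.T2H98.RS
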